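import Pool.Agent.Lib.MP_a5f47e_lc.Embed

/-! A Polish group embedded in a Polish group is a closed subgroup. -/

open Topology Filter Set Metric TopologicalSpace

namespace Pool.Agent.Lib.MP_a5f47e_lc

theorem isClosed_range_of_isEmbedding {G U : Type} [Group G] [TopologicalSpace G]
    [PolishSpace G] [Group U] [TopologicalSpace U] [IsTopologicalGroup U] [PolishSpace U]
    (f : G →* U) (hf : IsEmbedding f) : IsClosed (range f) := by
  let _ := upgradeIsCompletelyMetrizable G
  let O : ℕ → Set U := fun n =>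
    {u | ∃ W : Set U, IsOpen W ∧ u ∈ W ∧ ∀ a b, f a ∈ W → f b ∈ W → dist a b < 1 / (n + 1)}
  have hO : ∀ n, IsOpen (O n) := by
    intro n
    rw [isOpen_iff_forall_mem_open]
    rintro u ⟨W, h1, h2, h3⟩
    exact ⟨W, fun v hv => ⟨W, h1, hv, h3⟩, h1, h2⟩
  have hin : ∀ n g, f g ∈ O n := by
    intro n g
    have hp : (0 : ℝ) < 1 / (n + 1) / 2 := by positivity
    obtain ⟨W, h1, h2⟩ := hf.isInducing.isOpen_iff.1 (isOpen_ball (x := g) (ε := 1 / (n + 1) / 2))
    refine ⟨W, h1, ?_, fun a b ha hb => ?_⟩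
    · have : g ∈ f ⁻¹' W := by
        rw [h2]
        exact mem_ball_self hp
      exact this
    · have ha' : a ∈ f ⁻¹' W := ha
      have hb' : b ∈ f ⁻¹' W := hb
      rw [h2, mem_ball] at ha' hb'
      have := dist_triangle_right a b g
      linarith
  have hlim : ∀ u ∈ closure (range f), (∀ n, u ∈ O n) → u ∈ range f := by
    intro u hu hn
    have hne : (comap f (𝓝 u)).NeBot := by
      rw [comap_neBot_iff]
      intro t ht
      obtain ⟨v, hv1, g, rfl⟩ := mem_closure_iff_nhds.1 hu t ht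
      exact ⟨g, hv1⟩
    have hc : Cauchy (comap f (𝓝 u)) := by
      rw [Metric.cauchy_iff]
      refine ⟨hne, fun ε hε => ?_⟩
      obtain ⟨n, hn'⟩ := exists_nat_one_div_lt hε
      obtain ⟨W, h1, h2, h3⟩ := hn n
      exact ⟨f ⁻¹' W, preimage_mem_comap (h1.mem_nhds h2),
        fun a ha b hb => (h3 a b ha hb).trans hn'⟩
    obtain ⟨g, hg⟩ := CompleteSpace.complete hc
    have h1 : Tendsto f (comap f (𝓝 u)) (𝓝 (f g)) := (hf.continuous.tendsto g).mono_left hg
    exact ⟨g, tendsto_nhds_unique h1 tendsto_comap⟩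
  have hmul : ∀ x ∈ closure (range f), ∀ y ∈ closure (range f), x * y ∈ closure (range f) :=
    fun x hx y hy => f.range.topologicalClosure.mul_mem hx hy
  have hinv : ∀ x ∈ closure (range f), x⁻¹ ∈ closure (range f) :=
    fun x hx => f.range.topologicalClosure.inv_mem hx
  rw [← closure_subset_iff_isClosed]
  intro x hx
  have : PolishSpace (closure (range f)) := isClosed_closure.polishSpace
  have hd1 : ∀ n, Dense {y : closure (range f) | y.1 ∈ O n} := by
    intro n y
    rw [mem_closure_iff_nhds]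
    intro t ht
    obtain ⟨s, hs, hst⟩ := (mem_nhds_subtype _ _ _).1 ht
    obtain ⟨v, hv, g, rfl⟩ := mem_closure_iff_nhds.1 y.2 s hs
    exact ⟨⟨f g, subset_closure ⟨g, rfl⟩⟩, hst hv, hin n g⟩
  have hd2 : ∀ n, Dense {y : closure (range f) | x⁻¹ * y.1 ∈ O n} := by
    intro n y
    rw [mem_closure_iff_nhds]
    intro t ht
    obtain ⟨s, hs, hst⟩ := (mem_nhds_subtype _ _ _).1 ht
    have hs' : (fun z => x * z) ⁻¹' s ∈ 𝓝 (x⁻¹ * y.1) := by
      refine (continuous_const.mul continuous_id).continuousAt.preimage_mem_nhds ?_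
      simpa using hs
    obtain ⟨v, hv, g, rfl⟩ := mem_closure_iff_nhds.1 (hmul _ (hinv x hx) _ y.2) _ hs'
    refine ⟨⟨x * f g, hmul _ hx _ (subset_closure ⟨g, rfl⟩)⟩, hst hv, ?_⟩
    show x⁻¹ * (x * f g) ∈ O n
    rw [inv_mul_cancel_left]
    exact hin n g
  have ho1 : ∀ n, IsOpen {y : closure (range f) | y.1 ∈ O n} := fun n =>
    (hO n).preimage continuous_subtype_val
  have ho2 : ∀ n, IsOpen {y : closure (range f) | x⁻¹ * y.1 ∈ O n} := fun n =>
    (hO n).preimage (continuous_const.mul continuous_subtype_val)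
  have hd := dense_iInter_of_isOpen (fun n => (ho1 n).inter (ho2 n))
    (fun n => (hd1 n).inter_of_isOpen_left (hd2 n) (ho1 n))
  have : Nonempty (closure (range f)) := ⟨⟨x, hx⟩⟩
  obtain ⟨y, hy⟩ := hd.nonempty
  rw [mem_iInter] at hy
  obtain ⟨a, ha⟩ := hlim y.1 y.2 fun n => (hy n).1
  obtain ⟨b, hb⟩ := hlim _ (hmul _ (hinv x hx) _ y.2) fun n => (hy n).2
  refine ⟨a * b⁻¹, ?_⟩
  rw [map_mul, map_inv, ha, hb]
  group

end Pool.Agent.Lib.MP_a5f47e_lc
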