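import Mathlib

set_option autoImplicit false

namespace Pool.Agent.Lib.MP_a5f47e_lc

variable {A : Type*} [AddCommGroup A]

/-- a is killed by a power of p. -/
def IsPrim (p : ℕ) (a : A) : Prop := ∃ k : ℕ, p ^ k • a = 0

/-- a is killed by an integer coprime to p. -/
def IsCo (p : ℕ) (a : A) : Prop := ∃ N : ℕ, N.Coprime p ∧ N • a = 0

/-- Every element has finite order. -/
def Tor (A : Type*) [AddCommGroup A] : Prop := ∀ a : A, ∃ N : ℕ, 0 < N ∧ N • a = 0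

lemma nsmul_eq_zero_of_dvd {N M : ℕ} {a : A} (h : N • a = 0) (hd : N ∣ M) : M • a = 0 := by
  obtain ⟨c, rfl⟩ := hd
  rw [mul_comm, mul_smul, h, smul_zero]

lemma IsPrim.zero (p : ℕ) : IsPrim p (0 : A) := ⟨0, by simp⟩
lemma IsCo.zero (p : ℕ) : IsCo p (0 : A) := ⟨1, by simp, by simp⟩

lemma IsPrim.add {p : ℕ} {a b : A} (ha : IsPrim p a) (hb : IsPrim p b) : IsPrim p (a + b) := by
  obtain ⟨k, hk⟩ := ha
  obtain ⟨l, hl⟩ := hb
  refine ⟨k + l, ?_⟩
  rw [smul_add, nsmul_eq_zero_of_dvd hk (pow_dvd_pow _ (by omega)),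
    nsmul_eq_zero_of_dvd hl (pow_dvd_pow _ (by omega)), add_zero]

lemma IsPrim.neg {p : ℕ} {a : A} (ha : IsPrim p a) : IsPrim p (-a) := by
  obtain ⟨k, hk⟩ := ha
  exact ⟨k, by rw [smul_neg, hk, neg_zero]⟩

lemma IsPrim.sub {p : ℕ} {a b : A} (ha : IsPrim p a) (hb : IsPrim p b) : IsPrim p (a - b) := by
  rw [sub_eq_add_neg]; exact ha.add hb.neg

lemma IsCo.add {p : ℕ} {a b : A} (ha : IsCo p a) (hb : IsCo p b) : IsCo p (a + b) := by
  obtain ⟨k, hc, hk⟩ := ha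
  obtain ⟨l, hd, hl⟩ := hb
  refine ⟨k * l, Nat.Coprime.mul_left hc hd, ?_⟩
  rw [smul_add, nsmul_eq_zero_of_dvd hk (Dvd.intro _ rfl),
    nsmul_eq_zero_of_dvd hl (Dvd.intro_left _ rfl), add_zero]

lemma IsCo.neg {p : ℕ} {a : A} (ha : IsCo p a) : IsCo p (-a) := by
  obtain ⟨k, hc, hk⟩ := ha
  exact ⟨k, hc, by rw [smul_neg, hk, neg_zero]⟩

lemma IsCo.sub {p : ℕ} {a b : A} (ha : IsCo p a) (hb : IsCo p b) : IsCo p (a - b) := by
  rw [sub_eq_add_neg]; exact ha.add hb.neg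

lemma eq_zero_of_prim_co {p : ℕ} {a : A} (h1 : IsPrim p a) (h2 : IsCo p a) : a = 0 := by
  obtain ⟨k, hk⟩ := h1
  obtain ⟨N, hc, hN⟩ := h2
  have d1 := addOrderOf_dvd_of_nsmul_eq_zero hk
  have d2 := addOrderOf_dvd_of_nsmul_eq_zero hN
  have : addOrderOf a = 1 := Nat.eq_one_of_dvd_coprimes (hc.pow_right k) d2 d1
  exact AddMonoid.addOrderOf_eq_one_iff.1 this

lemma IsPrim.isCo {p q : ℕ} (hp : p.Prime) (hq : q.Prime) (hpq : p ≠ q) {a : A}
    (h : IsPrim p a) : IsCo q a := by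
  obtain ⟨k, hk⟩ := h
  exact ⟨p ^ k, Nat.Coprime.pow_left _ ((Nat.coprime_primes hp hq).2 hpq), hk⟩

open Classical in
/-- The p-part of an element of finite order. -/
noncomputable def pp (p : ℕ) (a : A) : A :=
  if h : ∃ b : A, IsPrim p b ∧ IsCo p (a - b) then h.choose else 0

lemma pp_unique {p : ℕ} {a b : A} (h1 : IsPrim p b) (h2 : IsCo p (a - b)) : pp p a = b := by
  have h : ∃ b : A, IsPrim p b ∧ IsCo p (a - b) := ⟨b, h1, h2⟩
  rw [pp, dif_pos h]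
  obtain ⟨h3, h4⟩ := h.choose_spec
  have e : h.choose - b = (a - b) - (a - h.choose) := by abel
  have : h.choose - b = 0 := eq_zero_of_prim_co (h3.sub h1) (e ▸ h2.sub h4)
  exact sub_eq_zero.1 this

lemma exists_mult {p : ℕ} (hp : p.Prime) {N : ℕ} (hN : 0 < N) : ∃ k : ℕ,
    ∀ (A : Type) [AddCommGroup A] (a : A), N • a = 0 →
      IsPrim p (k • a) ∧ IsCo p (a - k • a) := by
  obtain ⟨v, N', hN', rfl⟩ := Nat.exists_eq_pow_mul_and_not_dvd hN.ne' p hp.ne_one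
  have hc : Nat.Coprime N' p := ((Nat.Prime.coprime_iff_not_dvd hp).2 hN').symm
  have hc' : Nat.Coprime (p ^ v) N' := (hc.pow_right v).symm
  obtain ⟨k, hk1, hk2⟩ := Nat.chineseRemainder hc' 1 0
  refine ⟨k, fun A _ a ha => ⟨⟨v, ?_⟩, ⟨N', hc, ?_⟩⟩⟩
  · rw [← mul_smul]
    refine nsmul_eq_zero_of_dvd ha (Nat.mul_dvd_mul_left _ ?_)
    exact (Nat.modEq_zero_iff_dvd).1 hk2
  · obtain ⟨c, hc2⟩ := (Nat.modEq_iff_dvd.1 hk1)
    have e : N' • (a - k • a) = ((N' : ℤ) * (1 - k)) • a := by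
      rw [mul_smul, sub_smul, one_smul, natCast_zsmul, natCast_zsmul]
    rw [e]
    push_cast at hc2
    rw [hc2]
    have : (N' : ℤ) * ((p : ℤ) ^ v * c) = c * ((p ^ v * N' : ℕ) : ℤ) := by push_cast; ring
    rw [this, mul_smul, natCast_zsmul, ha, smul_zero]

lemma exists_mult_pp {p : ℕ} (hp : p.Prime) {N : ℕ} (hN : 0 < N) : ∃ k : ℕ,
    ∀ (A : Type) [AddCommGroup A] (a : A), N • a = 0 → pp p a = k • a := by
  obtain ⟨k, hk⟩ := exists_mult hp hN
  exact ⟨k, fun A _ a ha => pp_unique (hk A a ha).1 (hk A a ha).2⟩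

lemma pp_eq_self {p : ℕ} {a : A} (h : IsPrim p a) : pp p a = a :=
  pp_unique h (by rw [sub_self]; exact IsCo.zero p)

lemma pp_eq_zero {p : ℕ} {a : A} (h : IsCo p a) : pp p a = 0 :=
  pp_unique (IsPrim.zero p) (by rwa [sub_zero])

section tor
variable {B : Type} [AddCommGroup B]

lemma pp_spec (hB : Tor B) {p : ℕ} (hp : p.Prime) (a : B) :
    IsPrim p (pp p a) ∧ IsCo p (a - pp p a) := by
  obtain ⟨N, hN, ha⟩ := hB a
  obtain ⟨k, hk⟩ := exists_mult hp hN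
  rw [pp_unique (hk B a ha).1 (hk B a ha).2]
  exact hk B a ha

lemma pp_add (hB : Tor B) {p : ℕ} (hp : p.Prime) (a b : B) :
    pp p (a + b) = pp p a + pp p b := by
  refine pp_unique ((pp_spec hB hp a).1.add (pp_spec hB hp b).1) ?_
  have e : a + b - (pp p a + pp p b) = (a - pp p a) + (b - pp p b) := by abel
  rw [e]
  exact (pp_spec hB hp a).2.add (pp_spec hB hp b).2

/-- The p-part as a homomorphism. -/
noncomputable def ppHom (hB : Tor B) {p : ℕ} (hp : p.Prime) : B →+ B :=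
  AddMonoidHom.mk' (pp p) (pp_add hB hp)

lemma ppHom_apply (hB : Tor B) {p : ℕ} (hp : p.Prime) (a : B) : ppHom hB hp a = pp p a := rfl

lemma pp_sub (hB : Tor B) {p : ℕ} (hp : p.Prime) (a b : B) :
    pp p (a - b) = pp p a - pp p b := map_sub (ppHom hB hp) a b

lemma pp_sum (hB : Tor B) {p : ℕ} (hp : p.Prime) {ι : Type*} (s : Finset ι) (f : ι → B) :
    pp p (∑ i ∈ s, f i) = ∑ i ∈ s, pp p (f i) := map_sum (ppHom hB hp) f s

lemma eq_zero_of_pp (hB : Tor B) {a : B} (h : ∀ p : ℕ, p.Prime → pp p a = 0) : a = 0 := by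
  rw [← AddMonoid.addOrderOf_eq_one_iff]
  by_contra hne
  obtain ⟨p, hp, hd⟩ := Nat.exists_prime_and_dvd hne
  have := (pp_spec hB hp a).2
  rw [h p hp, sub_zero] at this
  obtain ⟨N, hc, hN⟩ := this
  have d := addOrderOf_dvd_of_nsmul_eq_zero hN
  have : p ∣ N := hd.trans d
  exact hp.ne_one (Nat.eq_one_of_dvd_coprimes hc this dvd_rfl)

lemma pp_pp_of_ne (hB : Tor B) {p q : ℕ} (hp : p.Prime) (hq : q.Prime) (hpq : p ≠ q) (a : B) :
    pp q (pp p a) = 0 :=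
  pp_eq_zero ((pp_spec hB hp a).1.isCo hp hq hpq)

lemma pp_eq_zero_of_lt {N p : ℕ} (hN : 0 < N) (hp : p.Prime) (hlt : N < p) {a : B}
    (ha : N • a = 0) : pp p a = 0 :=
  pp_eq_zero ⟨N, (Nat.Coprime.symm ((Nat.Prime.coprime_iff_not_dvd hp).2
    (Nat.not_dvd_of_pos_of_lt hN hlt))), ha⟩

lemma pp_sum_pp (hB : Tor B) {q : ℕ} (hq : q.Prime) (M : ℕ) (a : B) :
    pp q (∑ p ∈ (Finset.range M).filter Nat.Prime, pp p a) = if q < M then pp q a else 0 := by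
  rw [pp_sum hB hq]
  split_ifs with h
  · rw [Finset.sum_eq_single q]
    · exact pp_eq_self (pp_spec hB hq a).1
    · intro p hp hpq
      exact pp_pp_of_ne hB (Finset.mem_filter.1 hp).2 hq hpq a
    · intro hn
      exact absurd (Finset.mem_filter.2 ⟨Finset.mem_range.2 h, hq⟩) hn
  · apply Finset.sum_eq_zero
    intro p hp
    have hp' := Finset.mem_filter.1 hp
    refine pp_pp_of_ne hB hp'.2 hq ?_ a
    rintro rfl
    exact h (Finset.mem_range.1 hp'.1)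

lemma sum_pp (hB : Tor B) {N M : ℕ} (hN : 0 < N) (hM : N < M) {a : B} (ha : N • a = 0) :
    ∑ p ∈ (Finset.range M).filter Nat.Prime, pp p a = a := by
  symm
  rw [← sub_eq_zero]
  apply eq_zero_of_pp hB
  intro q hq
  rw [pp_sub hB hq, pp_sum_pp hB hq]
  split_ifs with h
  · exact sub_self _
  · rw [sub_zero]
    exact pp_eq_zero_of_lt hN hq (by omega) ha

end tor

end Pool.Agent.Lib.MP_a5f47e_lc
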