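import Mathlib
import Pool.Agent.Lib.MP_a5f47e_lc.Torsion

set_option autoImplicit false

namespace Pool.Agent.Lib.MP_a5f47e_lc

/-- The rational circle group. -/
abbrev QZ : Type := AddCircle (1 : ℚ)

/-- Extension of a single value to a homomorphism into a divisible group. -/
lemma ext_single {A D : Type} [AddCommGroup A] [AddCommGroup D] [DivisibleBy D ℤ]
    (F : AddSubgroup A) (a : A) (d : D) (h : ∀ k : ℤ, k • a ∈ F → k • d = 0) :
    ∃ χ : A →+ D, (∀ x ∈ F, χ x = 0) ∧ χ a = d := by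
  let f : ℤ →+ A ⧸ F := zmultiplesHom (A ⧸ F) (QuotientAddGroup.mk a)
  let g : ℤ →+ D := zmultiplesHom D d
  have hle : f.ker ≤ g.ker := by
    intro k hk
    rw [AddMonoidHom.mem_ker] at hk ⊢
    apply h
    have : (QuotientAddGroup.mk (k • a) : A ⧸ F) = 0 := by
      rw [QuotientAddGroup.mk_zsmul]; exact hk
    exact (QuotientAddGroup.eq_zero_iff _).1 this
  obtain ⟨H, hH⟩ := (Module.Baer.of_divisible D).extension_property_addMonoidHom
    (QuotientAddGroup.kerLift f) (QuotientAddGroup.kerLift_injective f)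
    (QuotientAddGroup.lift f.ker g hle)
  refine ⟨H.comp (QuotientAddGroup.mk' F), fun x hx => ?_, ?_⟩
  · have : (QuotientAddGroup.mk x : A ⧸ F) = 0 := (QuotientAddGroup.eq_zero_iff _).2 hx
    simp [this]
  · have := DFunLike.congr_fun hH (QuotientAddGroup.mk 1)
    simpa [f, g] using this

lemma QZ_tor : Tor QZ := by
  intro a
  obtain ⟨x, rfl⟩ := QuotientAddGroup.mk_surjective a
  refine ⟨x.den, x.den_pos, ?_⟩
  rw [← AddCircle.coe_nsmul, AddCircle.coe_eq_zero_iff]
  exact ⟨x.num, by simp [Rat.den_mul_eq_num]⟩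

lemma QZ_rel (a b : QZ) : ∃ α β : ℤ, IsCoprime α β ∧ α • a + β • b = 0 := by
  obtain ⟨x, rfl⟩ := QuotientAddGroup.mk_surjective a
  obtain ⟨y, rfl⟩ := QuotientAddGroup.mk_surjective b
  by_cases hy : y = 0
  · exact ⟨0, 1, isCoprime_one_right, by simp [hy]⟩
  · refine ⟨(x / y).den, -(x / y).num, ?_, ?_⟩
    · apply IsCoprime.neg_right
      rw [Int.isCoprime_iff_gcd_eq_one]
      have := (x / y).reduced
      simpa [Int.gcd, Nat.coprime_comm] using this
    · rw [← AddCircle.coe_zsmul, ← AddCircle.coe_zsmul, ← AddCircle.coe_add]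
      have : ((x / y).den : ℤ) • x + (-(x / y).num) • y = 0 := by
        have h1 : ((x / y).den : ℚ) * (x / y) = (x / y).num := by
          simp [Rat.den_mul_eq_num]
        simp only [zsmul_eq_mul, Int.cast_natCast, Int.cast_neg]
        rw [← h1]
        field_simp
        ring
      rw [this]
      rfl

/-- The class of 1 / N in the rational circle group. -/
noncomputable def invN (N : ℕ) : QZ := (((N : ℚ)⁻¹ : ℚ) : QZ)

lemma zsmul_invN {N : ℕ} (hN : 0 < N) (k : ℤ) : k • invN N = 0 ↔ (N : ℤ) ∣ k := by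
  rw [invN, ← AddCircle.coe_zsmul, AddCircle.coe_eq_zero_iff]
  have hN' : (N : ℚ) ≠ 0 := by exact_mod_cast hN.ne'
  constructor
  · rintro ⟨n, hn⟩
    refine ⟨n, ?_⟩
    simp only [zsmul_eq_mul, mul_one] at hn
    have : (k : ℚ) = N * n := by rw [hn]; field_simp
    exact_mod_cast this
  · rintro ⟨c, rfl⟩
    refine ⟨c, ?_⟩
    simp only [zsmul_eq_mul, mul_one]
    push_cast
    field_simp

lemma invN_ne_zero {p : ℕ} (hp : p.Prime) : invN p ≠ 0 := by
  intro h
  have : (1 : ℤ) • invN p = 0 := by rw [h, smul_zero]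
  rw [zsmul_invN hp.pos] at this
  have h2 : p ∣ 1 := by exact_mod_cast this
  exact hp.one_lt.ne' (Nat.dvd_one.1 h2)

lemma exists_inv_mod {p : ℕ} (hp : p.Prime) {β : ℤ} (h : ¬ (p : ℤ) ∣ β) (k : ℕ) :
    ∃ u v : ℤ, u * β + v * (p : ℤ) ^ k = 1 := by
  have hp' : Prime (p : ℤ) := Nat.prime_iff_prime_int.1 hp
  have : IsCoprime β (p : ℤ) := ((Prime.coprime_iff_not_dvd hp').2 h).symm
  exact this.pow_right (n := k)

lemma QZ_mem_zmultiples {p : ℕ} (hp : p.Prime) {x y : QZ} {k : ℕ} (hx0 : IsPrim p x)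
    (hx : p ^ k • x ≠ 0) (hy : p ^ (k + 1) • y = 0) : ∃ c : ℤ, y = c • x := by
  obtain ⟨α, β, hc, hr⟩ := QZ_rel x y
  by_cases hβ : (p : ℤ) ∣ β
  · exfalso
    have hα : ¬ (p : ℤ) ∣ α := by
      intro hα
      have := hc.isUnit_of_dvd' hα hβ
      rw [Int.isUnit_iff] at this
      have h2 := hp.one_lt
      omega
    obtain ⟨j, hj⟩ := hx0
    obtain ⟨u, v, huv⟩ := exists_inv_mod hp hα j
    obtain ⟨c, rfl⟩ := hβ
    apply hx
    have hj' : ((p : ℤ) ^ j) • x = 0 := by exact_mod_cast hj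
    have hy' : ((p : ℤ) ^ (k + 1)) • y = 0 := by exact_mod_cast hy
    have e1 : x = u • (α • x) := by
      calc x = (u * α + v * (p : ℤ) ^ j) • x := by rw [huv, one_smul]
        _ = u • (α • x) := by rw [add_smul, mul_smul, mul_smul, hj', smul_zero, add_zero]
    have e2 : α • x = -((p * c : ℤ) • y) := eq_neg_of_add_eq_zero_left hr
    have e3 : ((p : ℤ) ^ k) • x = (-(u * c)) • (((p : ℤ) ^ (k + 1)) • y) := by
      rw [e1, e2]
      module
    rw [hy', smul_zero] at e3
    exact_mod_cast e3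
  · obtain ⟨u, v, huv⟩ := exists_inv_mod hp hβ (k + 1)
    have hy' : ((p : ℤ) ^ (k + 1)) • y = 0 := by exact_mod_cast hy
    refine ⟨-(u * α), ?_⟩
    have e2 : β • y = -(α • x) := eq_neg_of_add_eq_zero_right hr
    calc y = (u * β + v * (p : ℤ) ^ (k + 1)) • y := by rw [huv, one_smul]
      _ = u • (β • y) := by rw [add_smul, mul_smul, mul_smul, hy', smul_zero, add_zero]
      _ = -(u * α) • x := by rw [e2]; module

/-- A set closed under a - b + c. -/
def Aff {A : Type*} [AddCommGroup A] (S : Set A) : Prop :=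
  ∀ a ∈ S, ∀ b ∈ S, ∀ c ∈ S, a - b + c ∈ S

lemma Aff.add_zsmul {A : Type*} [AddCommGroup A] {S : Set A} (hS : Aff S) {a b x : A}
    (ha : a ∈ S) (hb : b ∈ S) (hx : x ∈ S) (k : ℤ) : x + k • (a - b) ∈ S := by
  induction k using Int.induction_on with
  | zero => simpa using hx
  | succ k ih =>
    have := hS a ha b hb _ ih
    convert this using 1
    module
  | pred k ih =>
    have := hS b hb a ha _ ih
    convert this using 1
    module

/-- Linear compactness of the p-primary part of a group. -/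
def LinC (p : ℕ) (A : Type*) [AddCommGroup A] : Prop :=
  ∀ F : ℕ → Set A, (∀ m, (F m).Nonempty) → (∀ m, F (m + 1) ⊆ F m) → (∀ m, Aff (F m)) →
    (∀ m, ∀ x ∈ F m, IsPrim p x) → ∃ x, ∀ m, x ∈ F m

lemma finite_inter {A : Type*} (F : ℕ → Set A) (hne : ∀ m, (F m).Nonempty)
    (hanti : ∀ m, F (m + 1) ⊆ F m) (m0 : ℕ) (hfin : (F m0).Finite) : ∃ x, ∀ m, x ∈ F m := by
  have anti : Antitone F := antitone_nat_of_succ_le hanti
  by_contra hcon
  push Not at hcon
  choose f hf using hcon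
  obtain ⟨M, hM⟩ : ∃ M, ∀ x ∈ F m0, f x ≤ M := by
    obtain ⟨M, hM⟩ := (hfin.image f).bddAbove
    exact ⟨M, fun x hx => hM ⟨x, hx, rfl⟩⟩
  obtain ⟨x, hx⟩ := hne (max M m0)
  have h0 : x ∈ F m0 := anti (le_max_right _ _) hx
  exact hf x (anti ((hM x h0).trans (le_max_left _ _)) hx)

lemma QZ_linC {p : ℕ} (hp : p.Prime) : LinC p QZ := by
  intro F hne hanti haff hprim
  by_cases hfin : ∃ m, (F m).Finite
  · obtain ⟨m, hm⟩ := hfin
    exact finite_inter F hne hanti m hm
  · push Not at hfin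
    refine ⟨0, fun m => ?_⟩
    obtain ⟨a, ha⟩ := hne m
    obtain ⟨k, hk⟩ := hprim m a ha
    have hfin2 : {u : QZ | p ^ k • u = 0}.Finite := AddCircle.finite_torsion 1 (pow_pos hp.pos k)
    obtain ⟨b, hb, hb2⟩ : ∃ b ∈ F m, p ^ k • b ≠ 0 := by
      by_contra hcon
      push Not at hcon
      exact hfin m (hfin2.subset hcon)
    have h1 : p ^ k • (b - a) ≠ 0 := by rwa [smul_sub, hk, sub_zero]
    have h2 : p ^ (k + 1) • (-a) = 0 := by
      rw [smul_neg, nsmul_eq_zero_of_dvd hk (pow_dvd_pow _ (by omega)), neg_zero]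
    obtain ⟨c, hc⟩ := QZ_mem_zmultiples hp ((hprim m b hb).sub (hprim m a ha)) h1 h2
    have := (haff m).add_zsmul hb ha ha c
    rwa [← hc, add_neg_cancel] at this

/-- A group with a countable quotient has a homomorphism with that kernel into a fixed
countable group. -/
lemma exists_univ_hom {G : Type} [AddCommGroup G] (B : AddSubgroup G) (a : ℕ → G)
    (ha : ∀ g, ∃ n, g - a n ∈ B) : ∃ Φ : G →+ (ℕ →₀ ℚ × QZ), ∀ g, Φ g = 0 ↔ g ∈ B := by
  classical
  let F : ℕ → AddSubgroup G := fun n => B ⊔ AddSubgroup.closure (a '' {i | i < n})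
  have key : ∀ n, ∃ χ : G →+ ℚ × QZ, (∀ x ∈ F n, χ x = 0) ∧
      ∀ k : ℤ, χ (k • a n) = 0 → k • a n ∈ F n := by
    intro n
    let N := addOrderOf (QuotientAddGroup.mk (a n) : G ⧸ F n)
    have hN : ∀ k : ℤ, k • a n ∈ F n ↔ (N : ℤ) ∣ k := by
      intro k
      rw [addOrderOf_dvd_iff_zsmul_eq_zero, ← QuotientAddGroup.mk_zsmul,
        QuotientAddGroup.eq_zero_iff]
    have hd : ∀ k : ℤ, k • ((if N = 0 then 1 else 0, invN N) : ℚ × QZ) = 0 ↔ (N : ℤ) ∣ k := by
      intro k
      rw [Prod.smul_mk, Prod.mk_eq_zero]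
      by_cases h0 : N = 0
      · simp [h0, invN]
      · simp only [h0, if_false, smul_zero, true_and]
        exact zsmul_invN (Nat.pos_of_ne_zero h0) k
    obtain ⟨χ, h1, h2⟩ := ext_single (F n) (a n) ((if N = 0 then 1 else 0, invN N) : ℚ × QZ)
      (fun k hk => (hd k).2 ((hN k).1 hk))
    refine ⟨χ, h1, fun k hk => ?_⟩
    rw [map_zsmul, h2] at hk
    exact (hN k).2 ((hd k).1 hk)
  choose χ h1 h2 using key
  have hmono : Monotone F := by
    intro m n hmn
    exact sup_le_sup_left (AddSubgroup.closure_mono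
      (Set.image_mono fun i (hi : i < m) => lt_of_lt_of_le hi hmn)) _
  have hall : ∀ g, ∃ n, g ∈ F n := by
    intro g
    obtain ⟨n, hn⟩ := ha g
    refine ⟨n + 1, ?_⟩
    have : g = (g - a n) + a n := by abel
    rw [this]
    exact AddSubgroup.add_mem_sup hn (AddSubgroup.subset_closure ⟨n, Nat.lt_succ_self n, rfl⟩)
  have hfin : ∀ g, (Function.support fun n => χ n g).Finite := by
    intro g
    obtain ⟨n, hn⟩ := hall g
    refine (Set.finite_lt_nat n).subset fun m hm => ?_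
    by_contra hlt
    exact hm (h1 m g (hmono (not_lt.1 hlt) hn))
  let Φ : G →+ (ℕ →₀ ℚ × QZ) := AddMonoidHom.mk'
    (fun g => Finsupp.ofSupportFinite (fun n => χ n g) (hfin g)) (by
      intro g h
      ext1 n
      simp [Finsupp.ofSupportFinite_coe])
  have hΦ : ∀ g n, Φ g n = χ n g := fun g n => rfl
  refine ⟨Φ, fun g => ⟨fun hg => ?_, fun hg => ?_⟩⟩
  · have hz : ∀ n, χ n g = 0 := fun n => by rw [← hΦ, hg]; rfl
    have step : ∀ n, g ∈ F (n + 1) → g ∈ F n := by
      intro n hn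
      have hle : F (n + 1) ≤ F n ⊔ AddSubgroup.zmultiples (a n) := by
        refine sup_le (le_sup_left.trans le_sup_left) ?_
        rw [AddSubgroup.closure_le]
        rintro _ ⟨i, hi, rfl⟩
        rcases Nat.lt_succ_iff_lt_or_eq.1 hi with h | rfl
        · exact AddSubgroup.mem_sup_left
            (AddSubgroup.mem_sup_right (AddSubgroup.subset_closure ⟨i, h, rfl⟩))
        · exact AddSubgroup.mem_sup_right (AddSubgroup.mem_zmultiples _)
      obtain ⟨y, hy, z, ⟨k, rfl⟩, rfl⟩ := AddSubgroup.mem_sup.1 (hle hn)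
      have := hz n
      rw [map_add, h1 n y hy, zero_add] at this
      exact (F n).add_mem hy (h2 n k this)
    obtain ⟨n, hn⟩ := hall g
    have : g ∈ F 0 := by
      induction n with
      | zero => exact hn
      | succ n ih => exact ih (step n hn)
    simpa [F] using this
  · ext1 n
    rw [hΦ]
    exact h1 n g (AddSubgroup.mem_sup_left hg)

end Pool.Agent.Lib.MP_a5f47e_lc
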