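import Mathlib
import Pool.Agent.Lib.MP_a5f47e_lc.QZ

set_option autoImplicit false

namespace Pool.Agent.Lib.MP_a5f47e_lc

variable {H : ℕ → Type} [∀ n, AddCommGroup (H n)]

/-- Two sequences agree below n. -/
def Agree (n : ℕ) (g h : ∀ i, H i) : Prop := ∀ i < n, g i = h i

omit [∀ n, AddCommGroup (H n)] in
lemma Agree.refl (n : ℕ) (g : ∀ i, H i) : Agree n g g := fun _ _ => rfl

omit [∀ n, AddCommGroup (H n)] in
lemma Agree.symm {n : ℕ} {g h : ∀ i, H i} (a : Agree n g h) : Agree n h g :=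
  fun i hi => (a i hi).symm

omit [∀ n, AddCommGroup (H n)] in
lemma Agree.trans {n : ℕ} {g h k : ∀ i, H i} (a : Agree n g h) (b : Agree n h k) : Agree n g k :=
  fun i hi => (a i hi).trans (b i hi)

omit [∀ n, AddCommGroup (H n)] in
lemma Agree.mono {m n : ℕ} {g h : ∀ i, H i} (a : Agree n g h) (hmn : m ≤ n) : Agree m g h :=
  fun i hi => a i (lt_of_lt_of_le hi hmn)

/-- A decreasing system of cosets in the product, the n-th depending on n coordinates only. -/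
structure CS (C : ℕ → Set (∀ i, H i)) : Prop where
  inv : ∀ n g h, g ∈ C n → Agree n g h → h ∈ C n
  anti : ∀ n, C (n + 1) ⊆ C n
  aff : ∀ n, Aff (C n)

lemma CS.antitone {C : ℕ → Set (∀ i, H i)} (hC : CS C) : Antitone C :=
  antitone_nat_of_succ_le hC.anti

omit [∀ n, AddCommGroup (H n)] in
lemma exists_limit (n : ℕ) (s : ℕ → ∀ i, H i) (hs : ∀ k, Agree (n + k) (s (k + 1)) (s k)) :
    ∃ g : ∀ i, H i, ∀ k, Agree (n + k) g (s k) := by
  have h2 : ∀ k j, Agree (n + k) (s (k + j)) (s k) := by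
    intro k j
    induction j with
    | zero => exact Agree.refl _ _
    | succ j ih => exact ((hs (k + j)).mono (by omega)).trans ih
  refine ⟨fun i => s (i + 1) i, fun k i hi => ?_⟩
  have a1 := h2 k (i + 1) i hi
  have a2 := h2 (i + 1) k i (by omega)
  rw [add_comm (i + 1) k] at a2
  exact a2.symm.trans a1

lemma good_step {E : ℕ → Set (∀ i, H i)} (hE : CS E) {p : ℕ}
    (hprim : ∀ m g, g ∈ E m → ∀ i < m, IsPrim p (g i)) {n : ℕ} (hlin : LinC p (H n))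
    (σ : ∀ i, H i) (hgood : ∀ m, ∃ g, Agree n g σ ∧ g ∈ E m) :
    ∃ τ, Agree n τ σ ∧ ∀ m, ∃ g, Agree (n + 1) g τ ∧ g ∈ E m := by
  let F : ℕ → Set (H n) := fun m => {a | ∃ g, Agree n g σ ∧ g ∈ E (m + n + 1) ∧ g n = a}
  obtain ⟨a, ha⟩ := hlin F
    (fun m => by
      obtain ⟨g, h1, h2⟩ := hgood (m + n + 1)
      exact ⟨g n, g, h1, h2, rfl⟩)
    (fun m => by
      rintro _ ⟨g, h1, h2, rfl⟩
      exact ⟨g, h1, hE.antitone (by omega) h2, rfl⟩)
    (fun m => by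
      rintro _ ⟨g1, a1, b1, rfl⟩ _ ⟨g2, a2, b2, rfl⟩ _ ⟨g3, a3, b3, rfl⟩
      refine ⟨g1 - g2 + g3, fun i hi => ?_, hE.aff _ _ b1 _ b2 _ b3, rfl⟩
      simp [a1 i hi, a2 i hi, a3 i hi])
    (fun m => by
      rintro _ ⟨g, _, h2, rfl⟩
      exact hprim _ g h2 n (by omega))
  refine ⟨Function.update σ n a, fun i hi => Function.update_of_ne (by omega) _ _, fun m => ?_⟩
  obtain ⟨g, h1, h2, h3⟩ := ha m
  refine ⟨g, fun i hi => ?_, hE.antitone (by omega) h2⟩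
  rcases Nat.lt_succ_iff_lt_or_eq.1 hi with h | rfl
  · rw [Function.update_of_ne (by omega), h1 i h]
  · rw [Function.update_self, h3]

lemma ext_of_good {E : ℕ → Set (∀ i, H i)} (hE : CS E) {p : ℕ}
    (hprim : ∀ m g, g ∈ E m → ∀ i < m, IsPrim p (g i)) {n : ℕ} (hlin : ∀ i, n ≤ i → LinC p (H i))
    (σ : ∀ i, H i) (hgood : ∀ m, ∃ g, Agree n g σ ∧ g ∈ E m) :
    ∃ g, Agree n g σ ∧ ∀ m, g ∈ E m := by
  have step : ∀ (k : ℕ) (τ : ∀ i, H i), (∀ m, ∃ g, Agree (n + k) g τ ∧ g ∈ E m) →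
      ∃ τ', Agree (n + k) τ' τ ∧ ∀ m, ∃ g, Agree (n + (k + 1)) g τ' ∧ g ∈ E m :=
    fun k τ h => good_step hE hprim (hlin _ (by omega)) τ h
  choose f hf1 hf2 using step
  let s : (k : ℕ) → {τ : ∀ i, H i // ∀ m, ∃ g, Agree (n + k) g τ ∧ g ∈ E m} := fun k =>
    Nat.rec ⟨σ, hgood⟩ (fun k t => ⟨f k t.1 t.2, hf2 k t.1 t.2⟩) k
  obtain ⟨g, hg⟩ := exists_limit n (fun k => (s k).1) (fun k => hf1 k (s k).1 (s k).2)
  refine ⟨g, hg 0, fun m => ?_⟩
  obtain ⟨g', h1, h2⟩ := (s m).2 m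
  exact hE.inv m g' g h2 ((h1.trans (hg m).symm).mono (by omega))

/-- The p-part of a coset system. -/
def Cp (p : ℕ) (C : ℕ → Set (∀ i, H i)) (m : ℕ) : Set (∀ i, H i) :=
  {g | ∃ c ∈ C m, ∀ i < m, g i = pp p (c i)}

lemma Cp_cs (hT : ∀ n, Tor (H n)) {p : ℕ} (hp : p.Prime) {C : ℕ → Set (∀ i, H i)} (hC : CS C) :
    CS (Cp p C) where
  inv := by
    rintro n g h ⟨c, hc, hg⟩ a
    exact ⟨c, hc, fun i hi => (a i hi).symm.trans (hg i hi)⟩
  anti := by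
    rintro n g ⟨c, hc, hg⟩
    exact ⟨c, hC.anti n hc, fun i hi => hg i (by omega)⟩
  aff := by
    rintro n g1 ⟨c1, a1, b1⟩ g2 ⟨c2, a2, b2⟩ g3 ⟨c3, a3, b3⟩
    refine ⟨c1 - c2 + c3, hC.aff n _ a1 _ a2 _ a3, fun i hi => ?_⟩
    simp only [Pi.add_apply, Pi.sub_apply]
    rw [pp_add (hT i) hp, pp_sub (hT i) hp, b1 i hi, b2 i hi, b3 i hi]

lemma Cp_prim (hT : ∀ n, Tor (H n)) {p : ℕ} (hp : p.Prime) (C : ℕ → Set (∀ i, H i)) :
    ∀ m g, g ∈ Cp p C m → ∀ i < m, IsPrim p (g i) := by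
  rintro m g ⟨c, _, hg⟩ i hi
  rw [hg i hi]
  exact (pp_spec (hT i) hp _).1

/-- There is a point of the p-part of the system that vanishes below n. -/
def ExtP (p : ℕ) (C : ℕ → Set (∀ i, H i)) (n : ℕ) : Prop :=
  ∃ g, Agree n g 0 ∧ ∀ m, g ∈ Cp p C m

lemma common_order (hT : ∀ n, Tor (H n)) (g : ∀ i, H i) (n : ℕ) :
    ∃ N : ℕ, 0 < N ∧ ∀ i < n, N • g i = 0 := by
  choose N hN hNg using fun i => hT i (g i)
  refine ⟨∏ i ∈ Finset.range n, N i, Finset.prod_pos fun i _ => hN i, fun i hi => ?_⟩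
  exact nsmul_eq_zero_of_dvd (hNg i) (Finset.dvd_prod_of_mem _ (Finset.mem_range.2 hi))

lemma claimA_mp (hT : ∀ n, Tor (H n)) {C : ℕ → Set (∀ i, H i)} (h : ∃ g, ∀ m, g ∈ C m) :
    (∀ p : ℕ, p.Prime → ExtP p C 0) ∧ ∀ n, ∃ P : ℕ, ∀ p : ℕ, P ≤ p → p.Prime → ExtP p C n := by
  obtain ⟨g, hg⟩ := h
  refine ⟨fun p _ => ⟨fun i => pp p (g i), fun i hi => absurd hi (by omega),
    fun m => ⟨g, hg m, fun i _ => rfl⟩⟩, fun n => ?_⟩
  obtain ⟨N, hN, hNg⟩ := common_order hT g n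
  refine ⟨N + 1, fun p hNp hp => ⟨fun i => pp p (g i), fun i hi => ?_,
    fun m => ⟨g, hg m, fun i _ => rfl⟩⟩⟩
  exact pp_eq_zero_of_lt hN hp (by omega) (hNg i hi)

lemma claimA_mpr (hT : ∀ n, Tor (H n)) {C : ℕ → Set (∀ i, H i)} (hC : CS C)
    (h0 : ∀ p : ℕ, p.Prime → ExtP p C 0)
    (h1 : ∀ n, ∃ P : ℕ, ∀ p : ℕ, P ≤ p → p.Prime → ExtP p C n) : ∃ g, ∀ m, g ∈ C m := by
  classical
  have hch : ∀ p : ℕ, ∃ g : ∀ i, H i, p.Prime →
      (∀ m, g ∈ Cp p C m) ∧ ∀ n ≤ p, ExtP p C n → Agree n g 0 := by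
    intro p
    by_cases hp : p.Prime
    · have hs : ExtP p C (Nat.findGreatest (ExtP p C) p) :=
        Nat.findGreatest_spec (Nat.zero_le p) (h0 p hp)
      obtain ⟨g, hg1, hg2⟩ := hs
      exact ⟨g, fun _ => ⟨hg2, fun n hn he => hg1.mono (Nat.le_findGreatest hn he)⟩⟩
    · exact ⟨0, fun h => absurd h hp⟩
  choose gp hgp using hch
  choose P hP using h1
  have hz : ∀ n p : ℕ, p.Prime → max (P n) n ≤ p → Agree n (gp p) 0 := fun n p hp hle =>
    (hgp p hp).2 n (le_of_max_le_right hle) (hP n p (le_of_max_le_left hle) hp)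
  let g : ∀ i, H i := fun i =>
    ∑ p ∈ (Finset.range (max (P (i + 1)) (i + 1))).filter Nat.Prime, gp p i
  have hg : ∀ i M, max (P (i + 1)) (i + 1) ≤ M →
      g i = ∑ p ∈ (Finset.range M).filter Nat.Prime, gp p i := by
    intro i M hM
    apply Finset.sum_subset
    · exact Finset.filter_subset_filter _ (Finset.range_subset_range.2 hM)
    · intro p hp hnp
      have hp' := Finset.mem_filter.1 hp
      have : max (P (i + 1)) (i + 1) ≤ p := by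
        by_contra hlt
        exact hnp (Finset.mem_filter.2 ⟨Finset.mem_range.2 (not_le.1 hlt), hp'.2⟩)
      exact hz (i + 1) p hp'.2 this i (by omega)
  refine ⟨g, fun m => ?_⟩
  obtain ⟨c, hc, -⟩ := (hgp 2 Nat.prime_two).1 m
  obtain ⟨N, hN, hNc⟩ := common_order hT c m
  obtain ⟨M, hM1, hM2⟩ : ∃ M, N < M ∧ ∀ i < m, max (P (i + 1)) (i + 1) ≤ M := by
    refine ⟨N + 1 + ∑ i ∈ Finset.range m, max (P (i + 1)) (i + 1), by omega, fun i hi => ?_⟩
    have := Finset.single_le_sum (f := fun i => max (P (i + 1)) (i + 1))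
      (fun _ _ => Nat.zero_le _) (Finset.mem_range.2 hi)
    omega
  have hd : ∀ p : ℕ, p.Prime → ∃ (cp : ∀ i, H i) (k : ℤ), cp ∈ C m ∧
      ∀ i < m, gp p i = pp p (c i) + k • (cp i - c i) := by
    intro p hp
    obtain ⟨cp, hcp, hcp2⟩ := (hgp p hp).1 m
    obtain ⟨N', hN', hN'c⟩ := common_order hT (cp - c) m
    obtain ⟨k, hk⟩ := exists_mult_pp hp hN'
    refine ⟨cp, k, hcp, fun i hi => ?_⟩
    have := hk (H i) _ (hN'c i hi)
    rw [Pi.sub_apply, pp_sub (hT i) hp] at this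
    rw [natCast_zsmul, ← this, hcp2 i hi]
    abel
  choose! cp k hcp hk using hd
  have hsum : ∀ s : Finset ℕ, (∀ p ∈ s, p.Prime) → c + ∑ p ∈ s, k p • (cp p - c) ∈ C m := by
    intro s
    induction s using Finset.induction_on with
    | empty => intro _; simpa using hc
    | insert p s hps ih =>
      intro hs
      rw [Finset.sum_insert hps, add_comm (k p • _), ← add_assoc]
      exact (hC.aff m).add_zsmul (hcp p (hs p (Finset.mem_insert_self _ _))) hc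
        (ih fun q hq => hs q (Finset.mem_insert_of_mem hq)) _
  refine hC.inv m _ g (hsum ((Finset.range M).filter Nat.Prime)
    fun p hp => (Finset.mem_filter.1 hp).2) fun i hi => ?_
  rw [hg i M (hM2 i hi), Finset.sum_congr rfl fun p hp => hk p (Finset.mem_filter.1 hp).2 i hi,
    Finset.sum_add_distrib, sum_pp (hT i) hN hM1 (hNc i hi)]
  simp [Finset.sum_apply]

section meas
variable {Ω : Type*} [MeasurableSpace Ω] [∀ n, Countable (H n)]

lemma meas_exists (P : Ω → (∀ i, H i) → Prop) (m : ℕ)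
    (hinv : ∀ ω g h, P ω g → Agree m g h → P ω h) (hmeas : ∀ g, MeasurableSet {ω | P ω g}) :
    MeasurableSet {ω | ∃ g, P ω g} := by
  let e : ((i : Fin m) → H i) → ∀ i, H i := fun t i => if h : i < m then t ⟨i, h⟩ else 0
  have : {ω | ∃ g, P ω g} = ⋃ t : (i : Fin m) → H i, {ω | P ω (e t)} := by
    ext ω
    simp only [Set.mem_ofPred_eq, Set.mem_iUnion]
    constructor
    · rintro ⟨g, hg⟩
      exact ⟨fun i => g i, hinv ω g _ hg fun i hi => by simp [e, hi]⟩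
    · rintro ⟨t, ht⟩
      exact ⟨_, ht⟩
  rw [this]
  exact MeasurableSet.iUnion fun t => hmeas _

lemma meas_Cp (p : ℕ) (C : Ω → ℕ → Set (∀ i, H i)) (hC : ∀ ω, CS (C ω))
    (hmeas : ∀ g m, MeasurableSet {ω | g ∈ C ω m}) (g : ∀ i, H i) (m : ℕ) :
    MeasurableSet {ω | g ∈ Cp p (C ω) m} := by
  refine meas_exists (fun ω c => c ∈ C ω m ∧ ∀ i < m, g i = pp p (c i)) m ?_ ?_
  · rintro ω c c' ⟨h1, h2⟩ a
    exact ⟨(hC ω).inv m c c' h1 a, fun i hi => by rw [h2 i hi, a i hi]⟩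
  · intro c
    exact (hmeas c m).inter (MeasurableSet.const _)

lemma meas_ExtP (hT : ∀ n, Tor (H n)) {p : ℕ} (hp : p.Prime) (n0 : ℕ)
    (hlin : ∀ i, n0 ≤ i → LinC p (H i)) (C : Ω → ℕ → Set (∀ i, H i)) (hC : ∀ ω, CS (C ω))
    (hmeas : ∀ g m, MeasurableSet {ω | g ∈ C ω m}) (n : ℕ) :
    MeasurableSet {ω | ExtP p (C ω) n} := by
  have : {ω | ExtP p (C ω) n} = {ω | ∃ τ : ∀ i, H i, Agree n τ 0 ∧
      ∀ m, ∃ g, Agree (max n n0) g τ ∧ g ∈ Cp p (C ω) m} := by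
    ext ω
    constructor
    · rintro ⟨g, h1, h2⟩
      exact ⟨g, h1, fun m => ⟨g, Agree.refl _ _, h2 m⟩⟩
    · rintro ⟨τ, h1, h2⟩
      obtain ⟨g, h3, h4⟩ := ext_of_good (Cp_cs hT hp (hC ω)) (Cp_prim hT hp _)
        (fun i hi => hlin i (le_of_max_le_right hi)) τ h2
      exact ⟨g, (h3.mono (le_max_left _ _)).trans h1, h4⟩
  rw [this]
  refine meas_exists (fun ω τ => Agree n τ 0 ∧
      ∀ m, ∃ g, Agree (max n n0) g τ ∧ g ∈ Cp p (C ω) m) (max n n0) ?_ ?_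
  · rintro ω τ τ' ⟨h1, h2⟩ a
    refine ⟨(a.symm.mono (le_max_left _ _)).trans h1, fun m => ?_⟩
    obtain ⟨g, h3, h4⟩ := h2 m
    exact ⟨g, h3.trans a, h4⟩
  · intro τ
    refine (MeasurableSet.const _).inter ?_
    show MeasurableSet {ω | ∀ m, ∃ g, Agree (max n n0) g τ ∧ g ∈ Cp p (C ω) m}
    rw [Set.ofPred_forall]
    refine MeasurableSet.iInter fun m => ?_
    refine meas_exists (fun ω g => Agree (max n n0) g τ ∧ g ∈ Cp p (C ω) m)
      (max (max n n0) m) ?_ ?_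
    · rintro ω g g' ⟨h1, h2⟩ a
      exact ⟨(a.symm.mono (le_max_left _ _)).trans h1,
        (Cp_cs hT hp (hC ω)).inv m g g' h2 (a.mono (le_max_right _ _))⟩
    · intro g
      exact (MeasurableSet.const _).inter (meas_Cp p C hC hmeas g m)

theorem meas_inter (hT : ∀ n, Tor (H n))
    (hlin : ∀ p : ℕ, p.Prime → ∃ n0, ∀ i, n0 ≤ i → LinC p (H i))
    (C : Ω → ℕ → Set (∀ i, H i)) (hC : ∀ ω, CS (C ω))
    (hmeas : ∀ g m, MeasurableSet {ω | g ∈ C ω m}) :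
    MeasurableSet {ω | ∃ g, ∀ m, g ∈ C ω m} := by
  have hE : ∀ p n : ℕ, MeasurableSet {ω | p.Prime → ExtP p (C ω) n} := by
    intro p n
    by_cases hp : p.Prime
    · obtain ⟨n0, h0⟩ := hlin p hp
      simpa [hp] using meas_ExtP hT hp n0 h0 C hC hmeas n
    · simp [hp]
  have : {ω | ∃ g, ∀ m, g ∈ C ω m} = {ω | ∀ p : ℕ, p.Prime → ExtP p (C ω) 0} ∩
      {ω | ∀ n, ∃ P : ℕ, ∀ p : ℕ, P ≤ p → p.Prime → ExtP p (C ω) n} := by
    ext ω
    exact ⟨fun h => claimA_mp hT h, fun h => claimA_mpr hT (hC ω) h.1 h.2⟩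
  rw [this]
  refine MeasurableSet.inter ?_ ?_
  · rw [Set.ofPred_forall]
    exact MeasurableSet.iInter fun p => hE p 0
  · rw [Set.ofPred_forall]
    refine MeasurableSet.iInter fun n => ?_
    rw [Set.ofPred_exists]
    refine MeasurableSet.iUnion fun P => ?_
    rw [Set.ofPred_forall]
    refine MeasurableSet.iInter fun p => ?_
    by_cases h : P ≤ p
    · simpa [h] using hE p n
    · simp [h]

end meas

end Pool.Agent.Lib.MP_a5f47e_lc
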