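import Mathlib
import Pool.Agent.Lib.MP_a5f47e_lc.Coset

set_option autoImplicit false

namespace Pool.Agent.Lib.MP_a5f47e_lc

open Topology Filter

/-- Tameness of an additively written topological group. -/
def Tame (G : Type) [AddCommGroup G] [TopologicalSpace G] : Prop :=
  ∀ (X : Type) [TopologicalSpace X] [PolishSpace X] (act : G → X → X), (∀ x, act 0 x = x) →
    (∀ g h x, act (g + h) x = act g (act h x)) → Continuous (fun p : G × X => act p.1 p.2) →
    @MeasurableSet (X × X) (borel (X × X)) {p | ∃ g, act g p.1 = p.2}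

section pi
variable {H : ℕ → Type} [∀ n, AddCommGroup (H n)] [∀ n, TopologicalSpace (H n)]
  [∀ n, DiscreteTopology (H n)]

omit [∀ n, DiscreteTopology (H n)] in
lemma agree_of_nhds {s : Set (∀ i, H i)} (hs : s ∈ 𝓝 (0 : ∀ i, H i)) :
    ∃ n, ∀ h, Agree n h 0 → h ∈ s := by
  rw [nhds_pi, Filter.mem_pi] at hs
  obtain ⟨I, hI, t, ht, hts⟩ := hs
  obtain ⟨n, hn⟩ := hI.bddAbove
  refine ⟨n + 1, fun h hh => hts fun i hi => ?_⟩
  have : h i = 0 := hh i (Nat.lt_succ_of_le (hn hi))
  rw [this]
  exact mem_of_mem_nhds (ht i)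

lemma agree_mem_nhds (n : ℕ) : {h : ∀ i, H i | Agree n h 0} ∈ 𝓝 (0 : ∀ i, H i) := by
  have : {h : ∀ i, H i | Agree n h 0} = Set.pi {i | i < n} fun i => {0} := by
    ext h; simp [Agree]
  rw [this]
  exact set_pi_mem_nhds (Set.finite_lt_nat n) fun i _ => (isOpen_discrete _).mem_nhds rfl

/-- The points whose orbit under the n-th basic subgroup meets O. -/
def Wset {X : Type} (act : (∀ i, H i) → X → X) (n : ℕ) (O : Set X) : Set X :=
  {z | ∃ h, Agree n h 0 ∧ act h z ∈ O}

/-- The orbits under the n-th basic subgroup have the same closure. -/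
def Rel {X : Type} [TopologicalSpace X] (act : (∀ i, H i) → X → X) (n : ℕ) (z z' : X) : Prop :=
  ∀ O, IsOpen O → (z ∈ Wset act n O ↔ z' ∈ Wset act n O)

omit [∀ n, DiscreteTopology (H n)] in
theorem tame_pi [∀ n, Countable (H n)] (hT : ∀ n, Tor (H n))
    (hlin : ∀ p : ℕ, p.Prime → ∃ n0, ∀ i, n0 ≤ i → LinC p (H i)) : Tame (∀ i, H i) := by
  intro X _ _ act h0 hadd hcont
  let _ : MeasurableSpace (X × X) := borel (X × X)
  have : BorelSpace (X × X) := ⟨rfl⟩
  have hc1 : ∀ g, Continuous (act g) := fun g => hcont.comp (Continuous.prodMk_right g)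
  have hcomm : ∀ g h x, act g (act h x) = act h (act g x) := fun g h x => by
    rw [← hadd, ← hadd, add_comm]
  have hW : ∀ n O, IsOpen O → IsOpen (Wset act n O) := by
    intro n O hO
    have : Wset act n O = ⋃ h : {h : ∀ i, H i // Agree n h 0}, act h.1 ⁻¹' O := by
      ext z; simp [Wset]
    rw [this]
    exact isOpen_iUnion fun h => hO.preimage (hc1 _)
  have rel_act : ∀ n k z z', Rel act n z z' → Rel act n (act k z) (act k z') := by
    intro n k z z' h O hO
    have := h (act k ⁻¹' O) (hO.preimage (hc1 k))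
    simp only [Wset, Set.mem_ofPred_eq, Set.mem_preimage] at this ⊢
    simp only [hcomm _ k]
    exact this
  have rel_half : ∀ n z z', Rel act (n + 1) z z' → ∀ O, IsOpen O →
      z ∈ Wset act n O → z' ∈ Wset act n O := by
    rintro n z z' h O hO ⟨k, hk, hz⟩
    have h1 : z ∈ Wset act (n + 1) (act k ⁻¹' O) := ⟨0, Agree.refl _ _, by rwa [h0]⟩
    obtain ⟨k', hk', hz'⟩ := (h _ (hO.preimage (hc1 k))).1 h1
    refine ⟨k + k', fun i hi => ?_, by rwa [hadd]⟩
    have a1 : k i = 0 := hk i hi
    have a2 : k' i = 0 := hk' i (by omega)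
    simp [a1, a2]
  let C : X × X → ℕ → Set (∀ i, H i) := fun ω n => {g | Rel act n (act g ω.1) ω.2}
  have hC : ∀ ω, CS (C ω) := by
    intro ω
    refine ⟨?_, ?_, ?_⟩
    · intro n g g' hg a O hO
      rw [← hg O hO]
      have key : ∀ u v : ∀ i, H i, Agree n u v → act u ω.1 ∈ Wset act n O →
          act v ω.1 ∈ Wset act n O := by
        rintro u v huv ⟨k, hk, hz⟩
        refine ⟨k + u - v, fun i hi => ?_, ?_⟩
        · have a1 : k i = 0 := hk i hi
          simp [a1, huv i hi]
        · rw [← hadd, sub_add_cancel, hadd]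
          exact hz
      exact ⟨key _ _ a.symm, key _ _ a⟩
    · intro n g hg O hO
      exact ⟨rel_half n _ _ hg O hO, rel_half n _ _ (fun O hO => (hg O hO).symm) O hO⟩
    · intro n a ha b hb c hc O hO
      have hab : Rel act n (act a ω.1) (act b ω.1) := fun O hO => (ha O hO).trans (hb O hO).symm
      have := rel_act n (c - b) _ _ hab O hO
      rw [← hadd, ← hadd, sub_add_cancel] at this
      have e : a - b + c = c - b + a := by abel
      rw [e, this]
      exact hc O hO
  have hmeas : ∀ g m, MeasurableSet {ω | g ∈ C ω m} := by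
    intro g m
    have : {ω | g ∈ C ω m} = ⋂ O ∈ TopologicalSpace.countableBasis X,
        ({ω : X × X | act g ω.1 ∈ Wset act m O} ∩ {ω : X × X | ω.2 ∈ Wset act m O}) ∪
        ({ω : X × X | act g ω.1 ∈ Wset act m O}ᶜ ∩ {ω : X × X | ω.2 ∈ Wset act m O}ᶜ) := by
      ext ω
      simp only [Set.mem_iInter, Set.mem_union, Set.mem_inter_iff, Set.mem_compl_iff,
        Set.mem_ofPred_eq]
      constructor
      · intro h O hO
        have := h O (TopologicalSpace.isOpen_of_mem_countableBasis hO)
        tauto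
      · intro h O hO
        have key : ∀ z z', (∀ O ∈ TopologicalSpace.countableBasis X,
            z ∈ Wset act m O → z' ∈ Wset act m O) → z ∈ Wset act m O → z' ∈ Wset act m O := by
          rintro z z' hzz ⟨k, hk, hz⟩
          obtain ⟨O', hO', hz', hsub⟩ :=
            (TopologicalSpace.isBasis_countableBasis X).exists_subset_of_mem_open hz hO
          obtain ⟨k', hk', hz''⟩ := hzz O' hO' ⟨k, hk, hz'⟩
          exact ⟨k', hk', hsub hz''⟩
        constructor
        · refine key _ _ fun O' hO' => ?_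
          have := h O' hO'
          tauto
        · refine key _ _ fun O' hO' => ?_
          have := h O' hO'
          tauto
    rw [this]
    refine MeasurableSet.biInter (TopologicalSpace.countable_countableBasis X) fun O hO => ?_
    have hO' := hW m O (TopologicalSpace.isOpen_of_mem_countableBasis hO)
    have m1 : MeasurableSet {ω : X × X | act g ω.1 ∈ Wset act m O} :=
      (hO'.preimage ((hc1 g).comp continuous_fst)).measurableSet
    have m2 : MeasurableSet {ω : X × X | ω.2 ∈ Wset act m O} :=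
      (hO'.preimage continuous_snd).measurableSet
    exact (m1.inter m2).union (m1.compl.inter m2.compl)
  have : {p : X × X | ∃ g, act g p.1 = p.2} = {ω | ∃ g, ∀ m, g ∈ C ω m} := by
    ext ω
    constructor
    · rintro ⟨g, hg⟩
      refine ⟨g, fun m O _ => ?_⟩
      rw [hg]
    · rintro ⟨g, hg⟩
      refine ⟨g, ?_⟩
      by_contra hne
      obtain ⟨O1, O2, h1, h2, m1, m2, hd⟩ := t2_separation hne
      have hc2 : Continuous fun h => act h (act g ω.1) := hcont.comp (Continuous.prodMk_left _)
      have hn : (fun h => act h (act g ω.1)) ⁻¹' O1 ∈ 𝓝 (0 : ∀ i, H i) :=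
        (h1.preimage hc2).mem_nhds (by simpa [h0] using m1)
      obtain ⟨n, hn'⟩ := agree_of_nhds hn
      obtain ⟨k, hk, hz⟩ := (hg n O2 h2).2 ⟨0, Agree.refl _ _, by rwa [h0]⟩
      exact Set.disjoint_left.1 hd (hn' k hk) hz
  rw [this]
  exact meas_inter hT hlin C hC hmeas

end pi

theorem tame_prod {A V : Type} [AddCommGroup A] [TopologicalSpace A] [Countable A]
    [AddCommGroup V] [TopologicalSpace V] (hV : Tame V) : Tame (A × V) := by
  intro X _ _ act h0 hadd hcont
  let _ : MeasurableSpace (X × X) := borel (X × X)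
  have : BorelSpace (X × X) := ⟨rfl⟩
  have h := hV X (fun v => act (0, v)) h0 (fun g h x => by rw [← hadd]; simp)
    (hcont.comp (((Continuous.prodMk_right 0).comp continuous_fst).prodMk continuous_snd))
  have : {p : X × X | ∃ g, act g p.1 = p.2} = ⋃ a : A,
      (fun p : X × X => (act (a, 0) p.1, p.2)) ⁻¹' {p : X × X | ∃ v, act (0, v) p.1 = p.2} := by
    ext p
    simp only [Set.mem_ofPred_eq, Set.mem_iUnion, Set.mem_preimage, ← hadd]
    constructor
    · rintro ⟨⟨a, v⟩, hg⟩
      exact ⟨a, v, by simpa using hg⟩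
    · rintro ⟨a, v, hg⟩
      exact ⟨_, hg⟩
  rw [this]
  refine MeasurableSet.iUnion fun a => ?_
  have hc : Continuous fun p : X × X => (act (a, 0) p.1, p.2) :=
    ((hcont.comp (Continuous.prodMk_right (a, 0))).comp continuous_fst).prodMk continuous_snd
  exact hc.measurable h

end Pool.Agent.Lib.MP_a5f47e_lc
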