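import Mathlib
import Pool.Agent.Lib.MP_a5f47e_lc.TameU

set_option autoImplicit false

namespace Pool.Agent.Lib.MP_a5f47e_lc

open Topology Filter

variable {G : Type} [AddCommGroup G] [TopologicalSpace G]

/-- A decreasing neighbourhood base of zero made of open subgroups. -/
structure IsBase (B : ℕ → AddSubgroup G) : Prop where
  anti : Antitone B
  isOpen : ∀ n, IsOpen (B n : Set G)
  basis : ∀ s ∈ 𝓝 (0 : G), ∃ n, (B n : Set G) ⊆ s

lemma exists_base [FirstCountableTopology G]
    (hna : ∀ s ∈ 𝓝 (0 : G), ∃ V : AddSubgroup G, IsOpen (V : Set G) ∧ (V : Set G) ⊆ s) :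
    ∃ B : ℕ → AddSubgroup G, IsBase B := by
  obtain ⟨u, hu⟩ := (𝓝 (0 : G)).exists_antitone_basis
  choose V hV1 hV2 using fun n => hna (u n) (hu.mem n)
  refine ⟨fun n => ⨅ i ∈ Finset.range (n + 1), V i, ?_, ?_, ?_⟩
  · intro m n hmn
    exact biInf_mono fun i hi => Finset.mem_range.2 (by have := Finset.mem_range.1 hi; omega)
  · intro n
    have : ((⨅ i ∈ Finset.range (n + 1), V i : AddSubgroup G) : Set G) =
        ⋂ i ∈ Finset.range (n + 1), (V i : Set G) := by
      ext x; simp
    rw [this]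
    exact isOpen_biInter_finset fun i _ => hV1 i
  · intro s hs
    obtain ⟨n, hn⟩ := hu.mem_iff.1 hs
    refine ⟨n, fun x hx => hn (hV2 n ?_)⟩
    simp only [SetLike.mem_coe, AddSubgroup.mem_iInf] at hx
    exact hx n (Finset.mem_range.2 (Nat.lt_succ_self n))

lemma IsBase.subseq {B : ℕ → AddSubgroup G} (hB : IsBase B) (φ : ℕ → ℕ) (h1 : Monotone φ)
    (h2 : ∀ k, k ≤ φ k) : IsBase (fun k => B (φ k)) where
  anti := hB.anti.comp_monotone h1
  isOpen := fun k => hB.isOpen _
  basis := fun s hs => by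
    obtain ⟨n, hn⟩ := hB.basis s hs
    exact ⟨n, fun x hx => hn (hB.anti (h2 n) hx)⟩

omit [TopologicalSpace G] in
lemma tele {B : ℕ → AddSubgroup G} (hB : Antitone B) (w : ℕ → G)
    (hw : ∀ k, w (k + 1) - w k ∈ B k) (k j : ℕ) (hkj : k ≤ j) : w j - w k ∈ B k := by
  induction j, hkj using Nat.le_induction with
  | base => simp
  | succ j hj ih =>
    have : w (j + 1) - w k = (w (j + 1) - w j) + (w j - w k) := by abel
    rw [this]
    exact (B k).add_mem (hB hj (hw j)) ih

theorem IsBase.complete [IsTopologicalAddGroup G] [PolishSpace G] {B : ℕ → AddSubgroup G}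
    (hB : IsBase B) (g : ℕ → G) (hg : ∀ n, g (n + 1) - g n ∈ B n) :
    ∃ x, ∀ n, x - g n ∈ B n := by
  let _ := TopologicalSpace.upgradeIsCompletelyMetrizable G
  have small : ∀ (x : G) (ε : ℝ), 0 < ε → ∀ n0, ∃ n, n0 ≤ n ∧
      ∀ y, y - x ∈ B n → dist y x < ε := by
    intro x ε hε n0
    have hc : Continuous fun h : G => h + x := continuous_add_const x
    have : (fun h : G => h + x) ⁻¹' Metric.ball x ε ∈ 𝓝 (0 : G) :=
      (Metric.isOpen_ball.preimage hc).mem_nhds (by simpa using hε)
    obtain ⟨n, hn⟩ := hB.basis _ this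
    refine ⟨max n n0, le_max_right _ _, fun y hy => ?_⟩
    have := hn (hB.anti (le_max_left n n0) hy)
    simpa using this
  have lim : ∀ (w : ℕ → G) (m : ℕ → ℕ), Monotone m → (∀ k, w (k + 1) - w k ∈ B (m k)) →
      (∀ k y, y - w (k + 1) ∈ B (m (k + 1)) → dist y (w (k + 1)) < 2 * (1 / 2) ^ k) →
      ∃ x, ∀ k, x - w k ∈ B (m k) := by
    intro w m hm h1 h2
    have hcau : CauchySeq fun k => w (k + 1) := by
      refine cauchySeq_of_le_geometric (1 / 2) 2 (by norm_num) fun k => ?_
      rw [dist_comm]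
      exact (h2 k _ (h1 (k + 1))).le
    obtain ⟨x, hx⟩ := cauchySeq_tendsto_of_complete hcau
    refine ⟨x, fun k => ?_⟩
    have hcl : IsClosed (B (m k) : Set G) := (B (m k)).isClosed_of_isOpen (hB.isOpen _)
    refine hcl.mem_of_tendsto (hx.sub_const (w k)) ?_
    filter_upwards [eventually_ge_atTop k] with j hj
    exact tele (B := fun k => B (m k)) (hB.anti.comp_monotone hm) w h1 k (j + 1) (by omega)
  have step : ∀ (k : ℕ) (t : ℕ × G), ∃ t' : ℕ × G, t.1 ≤ t'.1 ∧ k ≤ t'.1 ∧ t'.2 - t.2 ∈ B t.1 ∧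
      (∀ y, y - t'.2 ∈ B t'.1 → dist y t'.2 < 2 * (1 / 2) ^ k) ∧
      (∀ y, y - (t'.2 + g t'.1) ∈ B t'.1 → dist y (t'.2 + g t'.1) < 2 * (1 / 2) ^ k) := by
    rintro k ⟨n, u⟩
    have hε : (0 : ℝ) < (1 / 2) ^ k := by positivity
    obtain ⟨n1, hn1, a1⟩ := small u _ hε (max n k)
    obtain ⟨n2, hn2, a2⟩ := small (u + g n1) _ hε n1
    have hd : g n2 - g n1 ∈ B n1 := tele hB.anti g hg n1 n2 hn2
    have hu : u + g n1 - g n2 - u ∈ B n1 := by
      have : u + g n1 - g n2 - u = -(g n2 - g n1) := by abel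
      rw [this]; exact (B n1).neg_mem hd
    refine ⟨(n2, u + g n1 - g n2), (le_of_max_le_left hn1).trans hn2,
      (le_of_max_le_right hn1).trans hn2, hB.anti (le_of_max_le_left hn1) hu, ?_, ?_⟩
    · intro y hy
      have b1 : y - u ∈ B n1 := by
        have : y - u = (y - (u + g n1 - g n2)) + (u + g n1 - g n2 - u) := by abel
        rw [this]; exact (B n1).add_mem (hB.anti hn2 hy) hu
      have c1 := a1 y b1
      have c2 := a1 _ hu
      have c3 := dist_triangle_right y (u + g n1 - g n2) u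
      simp only
      linarith
    · intro y hy
      simp only [sub_add_cancel] at hy ⊢
      have := a2 y hy
      linarith
  choose f f1 f2 f3 f4 f5 using step
  let s : ℕ → ℕ × G := fun k => Nat.rec (0, 0) (fun k t => f k t) k
  have hs : ∀ k, s (k + 1) = f k (s k) := fun k => rfl
  have hm : Monotone fun k => (s k).1 := monotone_nat_of_le_succ fun k => f1 k (s k)
  obtain ⟨u, hu⟩ := lim (fun k => (s k).2) (fun k => (s k).1) hm (fun k => f3 k (s k))
    (fun k => f4 k (s k))
  obtain ⟨v, hv⟩ := lim (fun k => (s k).2 + g (s k).1) (fun k => (s k).1) hm (fun k => by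
      have a1 := f3 k (s k)
      have a2 := tele hB.anti g hg _ _ (f1 k (s k))
      have := (B (s k).1).add_mem a1 a2
      rw [hs]
      convert this using 1
      abel)
    (fun k => f5 k (s k))
  refine ⟨v - u, fun n => ?_⟩
  have hn : n ≤ (s (n + 1)).1 := f2 n (s n)
  have a1 := hB.anti hn ((B _).sub_mem (hv (n + 1)) (hu (n + 1)))
  have a2 := tele hB.anti g hg _ _ hn
  have := (B n).add_mem a1 a2
  convert this using 1
  abel

theorem IsBase.exists_sum [IsTopologicalAddGroup G] [PolishSpace G] {B : ℕ → AddSubgroup G}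
    (hB : IsBase B) (x : ℕ → G) (hx : ∀ n, x n ∈ B n) :
    ∃ g, ∀ n, g - ∑ i ∈ Finset.range n, x i ∈ B n :=
  hB.complete _ fun n => by rw [Finset.sum_range_succ, add_sub_cancel_left]; exact hx n

lemma exists_seq_mod [IsTopologicalAddGroup G] [PolishSpace G] (B : AddSubgroup G)
    (hB : IsOpen (B : Set G)) : ∃ a : ℕ → G, ∀ g, ∃ n, g - a n ∈ B := by
  refine ⟨TopologicalSpace.denseSeq G, fun g => ?_⟩
  have hc : Continuous fun h : G => g - h := continuous_const.sub continuous_id
  obtain ⟨n, hn⟩ := (TopologicalSpace.denseRange_denseSeq G).exists_mem_open (hB.preimage hc)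
    ⟨g, by simp⟩
  exact ⟨n, hn⟩

theorem meas_of_tame [IsTopologicalAddGroup G] (hG : Tame G) {A J : Type} [AddCommGroup A]
    [Countable A] [Countable J] (φ : J → G →+ A) (hφ : ∀ j, IsOpen ((φ j).ker : Set G))
    (c : J → A) {Ω : Type} [MeasurableSpace Ω] (S : Ω → J → AddSubgroup A)
    (hS : ∀ j a, MeasurableSet {ω | a ∈ S ω j}) :
    MeasurableSet {ω | ∃ g, ∀ j, φ j g - c j ∈ S ω j} := by
  classical
  have : PolishSpace (J × A → Bool) := ⟨⟩
  let act : G → (J × A → Bool) → (J × A → Bool) := fun g x q => x (q.1, q.2 - φ q.1 g)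
  have hcont : Continuous fun p : G × (J × A → Bool) => act p.1 p.2 := by
    refine continuous_pi fun q => continuous_iff_continuousAt.2 fun p0 => ?_
    have h1 : Continuous fun p : G × (J × A → Bool) => p.2 (q.1, q.2 - φ q.1 p0.1) :=
      (continuous_apply _).comp continuous_snd
    refine h1.continuousAt.congr ?_
    have hc : Continuous fun p : G × (J × A → Bool) => p.1 - p0.1 :=
      continuous_fst.sub continuous_const
    filter_upwards [((hφ q.1).preimage hc).mem_nhds (by simp)] with p hp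
    have : φ q.1 p.1 = φ q.1 p0.1 := by
      have h2 : φ q.1 (p.1 - p0.1) = 0 := hp
      rwa [map_sub, sub_eq_zero] at h2
    simp only [act, this]
  have h := hG (J × A → Bool) act (fun x => by funext q; simp [act])
    (fun g h x => by funext q; simp [act, sub_sub]) hcont
  rw [← BorelSpace.measurable_eq] at h
  let F : Ω → (J × A → Bool) × (J × A → Bool) := fun ω =>
    (fun q => decide (q.2 ∈ S ω q.1), fun q => decide (q.2 - c q.1 ∈ S ω q.1))
  have hF : Measurable F := by
    refine Measurable.prodMk (measurable_pi_lambda _ fun q => measurable_to_bool ?_)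
      (measurable_pi_lambda _ fun q => measurable_to_bool ?_)
    · convert hS q.1 q.2 using 1
      ext ω; simp
    · convert hS q.1 (q.2 - c q.1) using 1
      ext ω; simp
  convert hF h using 1
  ext ω
  simp only [Set.mem_ofPred_eq, Set.mem_preimage]
  refine exists_congr fun g => ⟨fun hg => ?_, fun hg j => ?_⟩
  · funext q
    simp only [act, F, decide_eq_decide]
    have e : q.2 - c q.1 = (q.2 - φ q.1 g) + (φ q.1 g - c q.1) := by abel
    rw [e]
    exact ((S ω q.1).add_mem_cancel_right (hg q.1)).symm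
  · have := congrFun hg (j, φ j g)
    simp only [act, F, decide_eq_decide, sub_self] at this
    exact this.1 (S ω j).zero_mem

/-- Homomorphisms that vanish on some member of the base. -/
def LC {G : Type} [AddCommGroup G] {B : ℕ → AddSubgroup G} (hB : Antitone B) (A : Type)
    [AddCommGroup A] : AddSubgroup (G →+ A) where
  carrier := {φ | ∃ m, ∀ g ∈ B m, φ g = 0}
  zero_mem' := ⟨0, fun _ _ => rfl⟩
  add_mem' := by
    rintro φ ψ ⟨m, hm⟩ ⟨n, hn⟩
    refine ⟨max m n, fun g hg => ?_⟩
    rw [AddMonoidHom.add_apply, hm g (hB (le_max_left _ _) hg), hn g (hB (le_max_right _ _) hg),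
      add_zero]
  neg_mem' := by
    rintro φ ⟨m, hm⟩
    exact ⟨m, fun g hg => by rw [AddMonoidHom.neg_apply, hm g hg, neg_zero]⟩

theorem tree_criterion [IsTopologicalAddGroup G] (hG : Tame G) {B : ℕ → AddSubgroup G}
    (hB : IsBase B) {A N K : Type} [AddCommGroup A] [Countable A] [Countable N] [Countable K]
    (χ : N → G →+ A) (hχ : ∀ s, χ s ∈ LC hB.anti A) (π : N → List ℕ)
    (φ : K → G →+ A) (hφ : ∀ k, φ k ∈ LC hB.anti A) (c : K → A) (S : K → AddSubgroup A) :
    MeasurableSet {T : List ℕ → Bool |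
      ∃ g, (∀ s, T (π s) = false → χ s g = 0) ∧ ∀ k, φ k g - c k ∈ S k} := by
  have hop : ∀ ψ ∈ LC hB.anti A, IsOpen (ψ.ker : Set G) := by
    rintro ψ ⟨m, hm⟩
    exact AddSubgroup.isOpen_mono (H₁ := B m) (fun g hg => hm g hg) (hB.isOpen m)
  have := meas_of_tame hG (J := N ⊕ K) (Sum.elim χ φ)
    (by rintro (s | k); exacts [hop _ (hχ s), hop _ (hφ k)]) (Sum.elim (fun _ => 0) c)
    (Ω := List ℕ → Bool)
    (fun T => Sum.elim (fun s => if T (π s) = true then ⊤ else ⊥) S) (by
      rintro (s | k) a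
      · have : {T : List ℕ → Bool | a ∈ Sum.elim
            (fun s => if T (π s) = true then (⊤ : AddSubgroup A) else ⊥) S (Sum.inl s)} =
            (fun T : List ℕ → Bool => T (π s)) ⁻¹'
              {x : Bool | a ∈ (if x = true then (⊤ : AddSubgroup A) else ⊥)} := rfl
        rw [this]
        exact measurable_pi_apply _ MeasurableSet.of_discrete
      · exact MeasurableSet.const (a ∈ S k))
  convert this using 3 with T
  refine exists_congr fun g => ?_
  rw [Sum.forall]
  refine and_congr (forall_congr' fun s => ?_) Iff.rfl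
  cases h : T (π s) <;> simp [h]

lemma exists_seq_strong {α : Type*} (P : ℕ → α → Prop) (r : α → α → Prop)
    (h : ∀ (i : ℕ) (l : List α), ∃ y, P i y ∧ ∀ x ∈ l, r x y) :
    ∃ f : ℕ → α, (∀ i, P i (f i)) ∧ ∀ i j, i < j → r (f i) (f j) := by
  choose F h1 h2 using h
  let L : ℕ → List α := fun n => Nat.rec [] (fun i l => F i l :: l) n
  have hL : ∀ n, L (n + 1) = F n (L n) :: L n := fun n => rfl
  refine ⟨fun i => F i (L i), fun i => h1 i _, fun i j hij => h2 j _ _ ?_⟩
  induction j, hij using Nat.le_induction with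
  | base => rw [hL]; exact List.mem_cons_self
  | succ j _ ih => rw [hL]; exact List.mem_cons_of_mem _ ih

end Pool.Agent.Lib.MP_a5f47e_lc
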