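import Mathlib

set_option autoImplicit false

namespace Pool.Agent.Lib.MP_a5f47e_lc

open Topology Filter PiNat MeasureTheory

/-- Sets of finite sequences of naturals that contain all restrictions of some branch. -/
def IllF : Set (List ℕ → Bool) := {T | ∃ b : ℕ → ℕ, ∀ n, T (res b n) = true}

/-- Interleaving a finite sequence with the first bits of y. -/
def comb (y : ℕ → Bool) : List ℕ → List ℕ
  | [] => []
  | a :: s => Nat.pair a (y s.length).toNat :: comb y s

lemma comb_length (y : ℕ → Bool) (s : List ℕ) : (comb y s).length = s.length := by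
  induction s with
  | nil => rfl
  | cons a s ih => simp [comb, ih]

lemma comb_res_eq {y y' : ℕ → Bool} {b b' : ℕ → ℕ} {n : ℕ}
    (h : comb y (res b n) = comb y' (res b' n)) : ∀ i < n, b i = b' i ∧ y i = y' i := by
  induction n with
  | zero => intro i hi; omega
  | succ n ih =>
    simp only [res_succ, comb, List.cons.injEq, Nat.pair_eq_pair, res_length] at h
    intro i hi
    rcases Nat.lt_succ_iff_lt_or_eq.1 hi with h' | rfl
    · exact ih h.2 i h'
    · refine ⟨h.1.1, ?_⟩
      have := h.1.2
      cases hy : y i <;> cases hy' : y' i <;> simp_all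

/-- The bits of T, listed along an enumeration of the finite sequences. -/
def bits (T : List ℕ → Bool) : ℕ → Bool := fun i => T (Denumerable.ofNat (List ℕ) i)

lemma meas_comb (s : List ℕ) : ∀ l, MeasurableSet {T : List ℕ → Bool | comb (bits T) s = l} := by
  induction s with
  | nil => intro l; exact MeasurableSet.const ([] = l)
  | cons a s ih =>
    intro l
    cases l with
    | nil => simp [comb]
    | cons c l =>
      have : {T : List ℕ → Bool | comb (bits T) (a :: s) = c :: l} =
          (fun T : List ℕ → Bool => T (Denumerable.ofNat (List ℕ) s.length)) ⁻¹'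
            {x : Bool | Nat.pair a x.toNat = c} ∩ {T | comb (bits T) s = l} := by
        ext T; simp [comb, bits]
      rw [this]
      exact (measurable_pi_apply _ (MeasurableSet.of_discrete)).inter (ih l)

/-- The section of T at itself. -/
def diag (T : List ℕ → Bool) : List ℕ → Bool := fun s => T (comb (bits T) s)

lemma measurable_diag : Measurable diag := by
  refine measurable_pi_lambda _ fun s => ?_
  refine measurable_to_bool ?_
  have : (fun T => diag T s) ⁻¹' {true} = ⋃ l : List ℕ,
      {T : List ℕ → Bool | comb (bits T) s = l} ∩ (fun T : List ℕ → Bool => T l) ⁻¹' {true} := by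
    ext T; simp [diag]
  rw [this]
  exact MeasurableSet.iUnion fun l =>
    (meas_comb s l).inter (measurable_pi_apply _ (MeasurableSet.of_discrete))

theorem not_measurable_IllF : ¬ MeasurableSet IllF := by
  classical
  intro h
  have : PolishSpace (List ℕ → Bool) := ⟨⟩
  have hA : AnalyticSet (diag ⁻¹' IllF)ᶜ := (measurable_diag h).compl.analyticSet
  rw [AnalyticSet] at hA
  rcases hA with hA | ⟨f, hf, hA⟩
  · have : (fun _ => false) ∈ (diag ⁻¹' IllF)ᶜ := by
      rintro ⟨b, hb⟩
      simpa [diag] using hb 0
    rw [hA] at this
    exact this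
  · let T0 : List ℕ → Bool := fun l =>
      decide (∃ b : ℕ → ℕ, l = comb (bits (f b)) (res b l.length))
    have key : T0 ∈ Set.range f ↔ diag T0 ∈ IllF := by
      constructor
      · rintro ⟨b, hb⟩
        refine ⟨b, fun n => ?_⟩
        simp only [diag, T0, decide_eq_true_eq]
        refine ⟨b, ?_⟩
        rw [comb_length, res_length, hb]
      · rintro ⟨b, hb⟩
        have hb' : ∀ n, ∃ c : ℕ → ℕ,
            comb (bits T0) (res b n) = comb (bits (f c)) (res c n) := by
          intro n
          have := hb n
          simp only [diag, T0, decide_eq_true_eq] at this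
          obtain ⟨c, hc⟩ := this
          rw [comb_length, res_length] at hc
          exact ⟨c, hc⟩
        choose c hc using hb'
        have t1 : Tendsto c atTop (𝓝 b) := by
          rw [tendsto_pi_nhds]
          intro i
          refine tendsto_const_nhds.congr' ?_
          filter_upwards [eventually_gt_atTop i] with n hn
          exact (comb_res_eq (hc n) i hn).1
        have t2 : Tendsto (fun n => f (c n)) atTop (𝓝 T0) := by
          rw [tendsto_pi_nhds]
          intro l
          refine tendsto_const_nhds.congr' ?_
          filter_upwards [eventually_gt_atTop (Encodable.encode l)] with n hn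
          have := (comb_res_eq (hc n) _ hn).2
          simpa [bits] using this
        exact ⟨b, tendsto_nhds_unique ((hf.tendsto b).comp t1) t2⟩
    rw [hA] at key
    simp only [Set.mem_compl_iff, Set.mem_preimage] at key
    tauto

lemma exists_branch {α : Type*} (P : List α → Prop) (h0 : P [])
    (hs : ∀ s, P s → ∃ c, P (c :: s)) : ∃ b : ℕ → α, ∀ n, P (res b n) := by
  choose c hc using hs
  let s : ℕ → {l : List α // P l} := fun n =>
    Nat.rec ⟨[], h0⟩ (fun _ t => ⟨c t.1 t.2 :: t.1, hc t.1 t.2⟩) n
  refine ⟨fun n => c (s n).1 (s n).2, fun n => ?_⟩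
  have : ∀ n, res (fun n => c (s n).1 (s n).2) n = (s n).1 := by
    intro n
    induction n with
    | zero => rfl
    | succ n ih => rw [res_succ, ih]
  rw [this]
  exact (s n).2

end Pool.Agent.Lib.MP_a5f47e_lc
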