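import Mathlib
import Pool.Agent.Lib.MP_a5f47e_lc.Criterion
import Pool.Agent.Lib.MP_a5f47e_lc.NonBorel

set_option autoImplicit false

namespace Pool.Agent.Lib.MP_a5f47e_lc

open Topology Filter PiNat

variable {G : Type} [AddCommGroup G]

lemma countable_QZ : Countable QZ :=
  (QuotientAddGroup.mk_surjective (s := AddSubgroup.zmultiples (1 : ℚ))).countable

lemma fin_tors {A : Type} [AddCommGroup A] (s : Set A) (hs : s.Finite) {p : ℕ} (hp : 0 < p) :
    {a | a ∈ AddSubgroup.closure s ∧ p • a = 0}.Finite := by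
  let N : Submodule ℤ A := Submodule.span ℤ s ⊓ Submodule.torsionBy ℤ A (p : ℤ)
  have hfg : N.FG := Submodule.FG.of_le (Submodule.fg_span hs) inf_le_left
  have : Module.Finite ℤ N := Module.Finite.iff_fg.2 hfg
  have hfin : Finite N := Module.finite_of_fg_torsion N (by
    intro x
    refine ⟨⟨(p : ℤ), mem_nonZeroDivisors_of_ne_zero (by exact_mod_cast hp.ne')⟩, ?_⟩
    apply Subtype.ext
    exact x.2.2)
  refine (Set.toFinite (N : Set A)).subset ?_
  rintro a ⟨h1, h2⟩
  refine ⟨?_, ?_⟩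
  · rw [← Submodule.span_int_eq_addSubgroupClosure] at h1
    exact h1
  · show (p : ℤ) • a = 0
    rw [natCast_zsmul, h2]

lemma inf_ker {A : Type} [AddCommGroup A] (q : G →+ A) {p : ℕ} (hp : p.Prime) (R : AddSubgroup G)
    (hR : ∀ r ∈ R, p • q r = 0) (hinf : (q '' R).Infinite) (χ : G →+ QZ) :
    (q '' (R ⊓ χ.ker : AddSubgroup G)).Infinite := by
  intro hfin
  apply hinf
  by_cases hsub : q '' R ⊆ q '' (R ⊓ χ.ker : AddSubgroup G)
  · exact hfin.subset hsub
  obtain ⟨_, ⟨r, hr, rfl⟩, hr2⟩ := Set.not_subset.1 hsub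
  have hfin2 := fin_tors _ (hfin.insert (q r)) hp.pos
  refine hfin2.subset ?_
  rintro _ ⟨r', hr', rfl⟩
  refine ⟨?_, hR r' hr'⟩
  obtain ⟨α, β, hc, hrel⟩ := QZ_rel (χ r) (χ r')
  have hmem : ∀ u : ℤ, q (u • (α • r + β • r')) ∈ q '' (R ⊓ χ.ker : AddSubgroup G) := by
    intro u
    refine ⟨_, (R ⊓ χ.ker).zsmul_mem (AddSubgroup.mem_inf.2
      ⟨R.add_mem (R.zsmul_mem hr _) (R.zsmul_mem hr' _), ?_⟩) u, rfl⟩
    show χ (α • r + β • r') = 0
    rw [map_add, map_zsmul, map_zsmul, hrel]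
  have p1 : (p : ℤ) • q r = 0 := by rw [natCast_zsmul, hR r hr]
  have p2 : (p : ℤ) • q r' = 0 := by rw [natCast_zsmul, hR r' hr']
  by_cases hβ : (p : ℤ) ∣ β
  · exfalso
    have hα : ¬ (p : ℤ) ∣ α := by
      intro hα
      have := hc.isUnit_of_dvd' hα hβ
      rw [Int.isUnit_iff] at this
      have h2 := hp.one_lt
      omega
    obtain ⟨u, v, huv⟩ := exists_inv_mod hp hα 1
    obtain ⟨c, rfl⟩ := hβ
    apply hr2
    have e : q (u • (α • r + ((p : ℤ) * c) • r')) = q r := by
      rw [map_zsmul, map_add, map_zsmul, map_zsmul]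
      calc u • (α • q r + ((p : ℤ) * c) • q r')
          = (u * α + v * (p : ℤ) ^ 1) • q r - v • ((p : ℤ) • q r) + (u * c) • ((p : ℤ) • q r') := by
            module
        _ = q r := by rw [huv, p1, p2]; simp
    rw [← e]
    exact hmem u
  · obtain ⟨u, v, huv⟩ := exists_inv_mod hp hβ 1
    have e : q r' = q (u • (α • r + β • r')) - (u * α) • q r := by
      rw [map_zsmul, map_add, map_zsmul, map_zsmul]
      calc q r' = (u * β + v * (p : ℤ) ^ 1) • q r' - v • ((p : ℤ) • q r') := by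
            rw [huv, p2]; simp
        _ = u • (α • q r + β • q r') - (u * α) • q r := by module
    rw [e]
    exact sub_mem (AddSubgroup.subset_closure (Set.mem_insert_of_mem _ (hmem u)))
      (AddSubgroup.zsmul_mem _ (AddSubgroup.subset_closure (Set.mem_insert _ _)) _)

lemma inf_ker_list {A : Type} [AddCommGroup A] (q : G →+ A) {p : ℕ} (hp : p.Prime)
    (R : AddSubgroup G) (hR : ∀ r ∈ R, p • q r = 0) (hinf : (q '' R).Infinite)
    (l : List (G →+ QZ)) :
    ∃ R' : AddSubgroup G, R' ≤ R ∧ (∀ χ ∈ l, ∀ r ∈ R', χ r = 0) ∧ (q '' R').Infinite := by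
  induction l with
  | nil => exact ⟨R, le_rfl, by simp, hinf⟩
  | cons χ l ih =>
    obtain ⟨R', h1, h2, h3⟩ := ih
    refine ⟨R' ⊓ χ.ker, inf_le_left.trans h1, ?_,
      inf_ker q hp R' (fun r hr => hR r (h1 hr)) h3 χ⟩
    intro χ' hχ' r hr
    rcases List.mem_cons.1 hχ' with rfl | h
    · exact hr.2
    · exact h2 χ' h r hr.1

/-- The elements of order dividing p in the quotient of B1 by B2. -/
def Soc (p : ℕ) (B1 B2 : AddSubgroup G) : Set (G ⧸ B2) :=
  (QuotientAddGroup.mk : G → G ⧸ B2) '' {g | g ∈ B1 ∧ p • g ∈ B2}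

lemma exists_char {p : ℕ} (hp : p.Prime) (F : AddSubgroup G) (z : G) (hz : z ∉ F)
    (hpz : p • z ∈ F) : ∃ χ : G →+ QZ, (∀ x ∈ F, χ x = 0) ∧ χ z = invN p := by
  refine ext_single F z (invN p) fun k hk => (zsmul_invN hp.pos k).2 ?_
  by_contra hnd
  obtain ⟨u, v, huv⟩ := exists_inv_mod hp hnd 1
  apply hz
  have : z = u • (k • z) + v • (p • z) := by
    calc z = (u * k + v * (p : ℤ) ^ 1) • z := by rw [huv, one_smul]
      _ = u • (k • z) + v • (p • z) := by module
  rw [this]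
  exact F.add_mem (F.zsmul_mem hk _) (F.zsmul_mem hpz _)

lemma step_P {p : ℕ} (hp : p.Prime) (B1 B2 : AddSubgroup G) (hinf : (Soc p B1 B2).Infinite)
    (s : Set G) (hs : s.Finite) (l : List (G →+ QZ)) :
    ∃ (z : G) (χ : G →+ QZ), z ∈ B1 ∧ (∀ g ∈ B2, χ g = 0) ∧ χ z = invN p ∧ (∀ g ∈ s, χ g = 0) ∧
      ∀ χ' ∈ l, χ' z = 0 := by
  let q : G →+ G ⧸ B2 := QuotientAddGroup.mk' B2
  let R : AddSubgroup G := B1 ⊓ B2.comap (nsmulAddMonoidHom p)
  have hR : ∀ r ∈ R, p • q r = 0 := by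
    intro r hr
    rw [← map_nsmul]
    exact (QuotientAddGroup.eq_zero_iff _).2 hr.2
  obtain ⟨R', h1, h2, h3⟩ := inf_ker_list q hp R hR hinf l
  let F : AddSubgroup G := B2 ⊔ AddSubgroup.closure s
  obtain ⟨z, hz, hzF⟩ : ∃ z ∈ R', z ∉ F := by
    by_contra hcon
    push Not at hcon
    apply h3
    refine (fin_tors (q '' s) (hs.image q) hp.pos).subset ?_
    rintro _ ⟨z, hz, rfl⟩
    refine ⟨?_, hR z (h1 hz)⟩
    obtain ⟨y, hy, w, hw, rfl⟩ := AddSubgroup.mem_sup.1 (hcon z hz)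
    have : q y = 0 := (QuotientAddGroup.eq_zero_iff _).2 hy
    rw [map_add, this, zero_add, ← AddMonoidHom.map_closure]
    exact ⟨w, hw, rfl⟩
  obtain ⟨χ, c1, c2⟩ := exists_char hp F z hzF (AddSubgroup.mem_sup_left (h1 hz).2)
  exact ⟨z, χ, (h1 hz).1, fun g hg => c1 g (AddSubgroup.mem_sup_left hg), c2,
    fun g hg => c1 g (AddSubgroup.mem_sup_right (AddSubgroup.subset_closure hg)),
    fun χ' hχ' => h2 χ' hχ' z hz⟩

theorem not_tame_P [TopologicalSpace G] [IsTopologicalAddGroup G] [PolishSpace G]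
    {B : ℕ → AddSubgroup G} (hB : IsBase B) {p : ℕ} (hp : p.Prime)
    (hinf : ∀ n, (Soc p (B n) (B (n + 1))).Infinite) : ¬ Tame G := by
  classical
  have := countable_QZ
  intro hG
  choose a ha using fun n => exists_seq_mod (B (n + 1)) (hB.isOpen _)
  let lev : ℕ → ℕ := fun i => (Denumerable.ofNat (List ℕ) i).length
  obtain ⟨f, f1, f2⟩ := exists_seq_strong
    (fun i (t : G × (G →+ QZ)) => t.1 ∈ B (lev i) ∧ (∀ g ∈ B (lev i + 1), t.2 g = 0) ∧
      t.2 t.1 = invN p ∧ ∀ j < i, t.2 (a (lev i) j) = 0)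
    (fun t t' => t.2 t'.1 = 0 ∧ t'.2 t.1 = 0) (by
      intro i l
      obtain ⟨z, χ, c1, c2, c3, c4, c5⟩ := step_P hp _ _ (hinf (lev i))
        ((a (lev i)) '' {j | j < i} ∪ Prod.fst '' {t | t ∈ l})
        (((Set.finite_lt_nat i).image _).union ((List.finite_toSet l).image _)) (l.map Prod.snd)
      exact ⟨(z, χ), ⟨c1, c2, c3, fun j hj => c4 _ (Or.inl ⟨j, hj, rfl⟩)⟩, fun t ht =>
        ⟨c5 _ (List.mem_map_of_mem ht), c4 _ (Or.inr ⟨t, ht, rfl⟩)⟩⟩)
  let z : List ℕ → G := fun s => (f (Encodable.encode s)).1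
  let χ : List ℕ → G →+ QZ := fun s => (f (Encodable.encode s)).2
  have hlev : ∀ s : List ℕ, lev (Encodable.encode s) = s.length := fun s => by
    simp [lev]
  have z1 : ∀ s, z s ∈ B s.length := fun s => hlev s ▸ (f1 _).1
  have χ1 : ∀ s, ∀ g ∈ B (s.length + 1), χ s g = 0 := fun s => hlev s ▸ (f1 _).2.1
  have χ2 : ∀ s, ∀ j < Encodable.encode s, χ s (a s.length j) = 0 :=
    fun s => hlev s ▸ (f1 _).2.2.2
  have bio : ∀ s t, χ s (z t) = if t = s then invN p else 0 := by
    intro s t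
    split_ifs with h
    · rw [h]; exact (f1 _).2.2.1
    · have hne : Encodable.encode s ≠ Encodable.encode t :=
        fun e => h (Encodable.encode_injective e).symm
      rcases lt_or_gt_of_ne hne with h' | h'
      · exact (f2 _ _ h').1
      · exact (f2 _ _ h').2
  have hfs : ∀ (s : List ℕ) (g : G), (Function.support fun j : ℕ => χ (j :: s) g).Finite := by
    intro s g
    obtain ⟨k, hk⟩ := ha (s.length + 1) g
    have hinj : Function.Injective fun j : ℕ => Encodable.encode (j :: s) := fun i j e => by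
      simpa using Encodable.encode_injective e
    refine ((Set.finite_le_nat k).preimage hinj.injOn).subset fun j hj => ?_
    by_contra hlt
    apply hj
    have e1 := χ1 (j :: s) _ hk
    have e2 := χ2 (j :: s) k (not_le.1 hlt)
    rw [map_sub, sub_eq_zero] at e1
    exact e1.trans e2
  let σ : List ℕ → G →+ QZ := fun s => AddMonoidHom.mk' (fun g => ∑ᶠ j : ℕ, χ (j :: s) g) (by
    intro g h
    simp only [map_add]
    exact finsum_add_distrib (hfs s g) (hfs s h))
  have hσ : ∀ s g, σ s g = ∑ᶠ j : ℕ, χ (j :: s) g := fun s g => rfl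
  have hχ : ∀ s, χ s ∈ LC hB.anti QZ := fun s => ⟨_, χ1 s⟩
  have hσ' : ∀ s, σ s ∈ LC hB.anti QZ := fun s => ⟨s.length + 1 + 1, fun g hg => by
    rw [hσ]
    exact finsum_eq_zero_of_forall_eq_zero fun j => χ1 (j :: s) g hg⟩
  have hm := tree_criterion hG hB (N := List ℕ) (K := Unit ⊕ List ℕ) χ hχ id
    (Sum.elim (fun _ => χ []) fun s => χ s - σ s) (by
      rintro (_ | s)
      · exact hχ _
      · exact sub_mem (hχ _) (hσ' _))
    (Sum.elim (fun _ => invN p) fun _ => 0) (fun _ => ⊥)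
  apply not_measurable_IllF
  convert hm using 1
  ext T
  simp only [IllF, Set.mem_ofPred_eq, Sum.forall, Sum.elim_inl, Sum.elim_inr,
    AddSubgroup.mem_bot, sub_eq_zero, forall_const, AddMonoidHom.sub_apply, id, hσ]
  constructor
  · rintro ⟨b, hb⟩
    obtain ⟨g, hg⟩ := hB.exists_sum (fun n => z (res b n)) fun n => by
      simpa using z1 (res b n)
    have val : ∀ s, χ s g = if res b s.length = s then invN p else 0 := by
      intro s
      have := χ1 s _ (hg (s.length + 1))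
      rw [map_sub, sub_eq_zero, map_sum] at this
      rw [this, Finset.sum_eq_single s.length, bio]
      · intro k _ hk
        rw [bio, if_neg]
        intro e
        apply hk
        rw [← e, res_length]
      · simp
    refine ⟨g, fun s hs => ?_, ?_, fun s => ?_⟩
    · rw [val, if_neg]
      intro e
      rw [← e, hb] at hs
      exact absurd hs (by simp)
    · rw [val]; simp
    · rw [finsum_eq_single _ (b s.length)]
      · rw [val, val]
        simp
      · intro j hj
        rw [val, if_neg]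
        intro e
        simp only [List.length_cons, res_succ, List.cons.injEq] at e
        exact hj e.1.symm
  · rintro ⟨g, c1, c2, c3⟩
    obtain ⟨c, hc⟩ := exists_branch (fun s => χ s g ≠ 0) (by rw [c2]; exact invN_ne_zero hp) (by
      intro s hs
      by_contra hcon
      push Not at hcon
      exact hs ((c3 s).trans (finsum_eq_zero_of_forall_eq_zero hcon)))
    refine ⟨c, fun n => ?_⟩
    by_contra hne
    exact hc n (c1 _ (by simpa using hne))

end Pool.Agent.Lib.MP_a5f47e_lc
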