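import Mathlib
import Pool.Agent.Lib.MP_a5f47e_lc.Criterion
import Pool.Agent.Lib.MP_a5f47e_lc.NonBorel

set_option autoImplicit false

namespace Pool.Agent.Lib.MP_a5f47e_lc

open Topology Filter PiNat

variable {G : Type} [AddCommGroup G]

lemma biorth_Z {B : ℕ → AddSubgroup G} (hB : Antitone B) (x : ℕ → G) (hx : ∀ n, x n ∈ B n)
    (hinf : ∀ (n : ℕ) (k : ℤ), k • x n ∈ B (n + 1) → k = 0) (m : ℕ) :
    ∃ ψ : G →+ ℚ, (∀ g ∈ B (m + 1), ψ g = 0) ∧ ∀ n, ψ (x n) = if n = m then 1 else 0 := by
  induction m using Nat.strong_induction_on with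
  | _ m ih =>
    choose ψ h1 h2 using ih
    obtain ⟨χ, c1, c2⟩ := ext_single (B (m + 1)) (x m) (1 : ℚ)
      (fun k hk => by rw [hinf m k hk, zero_smul])
    refine ⟨χ - ∑ k : Fin m, χ (x k) • ψ k k.2, fun g hg => ?_, fun n => ?_⟩
    · rw [AddMonoidHom.sub_apply, AddMonoidHom.finsetSum_apply, c1 g hg, Finset.sum_eq_zero,
        sub_zero]
      intro k _
      rw [AddMonoidHom.smul_apply, h1 k k.2 g (hB (by have := k.2; omega) hg), smul_zero]
    · rw [AddMonoidHom.sub_apply, AddMonoidHom.finsetSum_apply]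
      simp only [AddMonoidHom.smul_apply, h2]
      rcases lt_trichotomy n m with h | rfl | h
      · rw [Finset.sum_eq_single ⟨n, h⟩]
        · simp [h.ne]
        · intro k _ hk
          have : n ≠ k := fun e => hk (Fin.ext e.symm)
          simp [this]
        · simp
      · rw [Finset.sum_eq_zero]
        · simp [c2]
        · intro k _
          have : n ≠ k := by have := k.2; omega
          simp [this]
      · rw [Finset.sum_eq_zero]
        · simp [h.ne', c1 (x n) (hB h (hx n))]
        · intro k _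
          have : n ≠ k := by have := k.2; omega
          simp [this]

lemma eq_zero_of_forall_mem {q : ℚ} {r : ℕ} (hr : 1 < r)
    (h : ∀ K : ℕ, q ∈ AddSubgroup.zmultiples ((r : ℚ) ^ K)) : q = 0 := by
  obtain ⟨z, hz⟩ := h 0
  simp only [pow_zero, zsmul_eq_mul, mul_one] at hz
  have : ∀ K : ℕ, (r : ℤ) ^ K ∣ z := by
    intro K
    obtain ⟨w, hw⟩ := h K
    simp only [zsmul_eq_mul] at hw
    refine ⟨w, ?_⟩
    have : (z : ℚ) = (r : ℚ) ^ K * w := by rw [hz, ← hw, mul_comm]
    exact_mod_cast this
  have h0 : z = 0 := by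
    refine Int.eq_zero_of_dvd_of_natAbs_lt_natAbs (this z.natAbs) ?_
    rw [Int.natAbs_pow, Int.natAbs_natCast]
    exact Nat.lt_pow_self hr
  rw [← hz, h0, Int.cast_zero]

lemma exists_coef : ∃ u v : ℕ → ℤ, ∀ k, 3 ^ k * v k - 2 ^ k * u k = 1 := by
  have : ∀ k : ℕ, ∃ u v : ℤ, 3 ^ k * v - 2 ^ k * u = 1 := by
    intro k
    have h : IsCoprime ((3 : ℤ) ^ k) (2 ^ k) := IsCoprime.pow ⟨1, -1, by norm_num⟩
    obtain ⟨a, b, hab⟩ := h
    exact ⟨-b, a, by linear_combination hab⟩
  choose u v h using this
  exact ⟨u, v, h⟩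

/-- The solution of the linear system attached to a branch. -/
def solZ (u v : ℕ → ℤ) (b : ℕ → ℕ) : List (ℕ × Bool) → ℤ
  | [] => 1
  | c :: s => if c.1 = b s.length then (if c.2 then v c.1 else u c.1) * solZ u v b s else 0

lemma solZ_branch (u v : ℕ → ℤ) (b : ℕ → ℕ) (s : List (ℕ × Bool)) (h : solZ u v b s ≠ 0) :
    s.map Prod.fst = res b s.length := by
  induction s with
  | nil => rfl
  | cons c s ih =>
    simp only [solZ] at h
    split_ifs at h with h1 h2
    · rw [List.map_cons, List.length_cons, res_succ, h1, ih (right_ne_zero_of_mul h)]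
    · rw [List.map_cons, List.length_cons, res_succ, h1, ih (right_ne_zero_of_mul h)]
    · exact absurd rfl h

lemma map_fst_res (c : ℕ → ℕ × Bool) (n : ℕ) :
    (res c n).map Prod.fst = res (fun i => (c i).1) n := by
  induction n with
  | zero => rfl
  | succ n ih => rw [res_succ, res_succ, List.map_cons, ih]

theorem not_tame_Z [TopologicalSpace G] [IsTopologicalAddGroup G] [PolishSpace G]
    {B : ℕ → AddSubgroup G} (hB : IsBase B) (x : ℕ → G) (hx : ∀ n, x n ∈ B n)
    (hinf : ∀ (n : ℕ) (k : ℤ), k • x n ∈ B (n + 1) → k = 0) : ¬ Tame G := by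
  intro hG
  choose ψ h1 h2 using biorth_Z hB.anti x hx hinf
  have hsurj : ∀ a : ℕ → ℤ, ∃ g, ∀ i, ψ i g = a i := by
    intro a
    obtain ⟨g, hg⟩ := hB.exists_sum (fun n => a n • x n) fun n => (B n).zsmul_mem (hx n) _
    refine ⟨g, fun i => ?_⟩
    have := h1 i _ (hg (i + 1))
    rw [map_sub, sub_eq_zero, map_sum] at this
    rw [this, Finset.sum_eq_single i]
    · simp [h2]
    · intro k _ hk
      simp [h2, hk]
    · simp
  let av : List (ℕ × Bool) → G →+ ℚ := fun s => ψ (Encodable.encode (s, false))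
  let bv : List (ℕ × Bool) → G →+ ℚ := fun s => ψ (Encodable.encode (s, true))
  have hsurj2 : ∀ a b : List (ℕ × Bool) → ℤ, ∃ g, (∀ s, av s g = a s) ∧ ∀ s, bv s g = b s := by
    intro a b
    obtain ⟨g, hg⟩ := hsurj (Function.extend
      (Encodable.encode : List (ℕ × Bool) × Bool → ℕ) (fun q => if q.2 then b q.1 else a q.1) 0)
    refine ⟨g, fun s => ?_, fun s => ?_⟩
    · simp only [av]
      rw [hg, Encodable.encode_injective.extend_apply]
      simp
    · simp only [bv]
      rw [hg, Encodable.encode_injective.extend_apply]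
      simp
  have hψ : ∀ i, ψ i ∈ LC hB.anti ℚ := fun i => ⟨i + 1, h1 i⟩
  let φ1 : List (ℕ × Bool) × ℕ → G →+ ℚ := fun q =>
    bv q.1 - av q.1 - ∑ k ∈ Finset.range q.2, 2 ^ k • av ((k, false) :: q.1)
  let φ2 : List (ℕ × Bool) × ℕ → G →+ ℚ := fun q =>
    bv q.1 - ∑ k ∈ Finset.range q.2, 3 ^ k • av ((k, true) :: q.1)
  have hm := tree_criterion hG hB (N := List (ℕ × Bool))
    (K := Unit ⊕ (List (ℕ × Bool) × ℕ) ⊕ (List (ℕ × Bool) × ℕ)) av (fun s => hψ _)
    (List.map Prod.fst) (Sum.elim (fun _ => av []) (Sum.elim φ1 φ2)) (by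
      rintro (_ | q | q)
      · exact hψ _
      · exact sub_mem (sub_mem (hψ _) (hψ _)) (sum_mem fun k _ => nsmul_mem (hψ _) _)
      · exact sub_mem (hψ _) (sum_mem fun k _ => nsmul_mem (hψ _) _))
    (Sum.elim (fun _ => 1) fun _ => 0)
    (Sum.elim (fun _ => ⊥) (Sum.elim (fun q => AddSubgroup.zmultiples (((2 : ℕ) : ℚ) ^ q.2))
      fun q => AddSubgroup.zmultiples (((3 : ℕ) : ℚ) ^ q.2)))
  apply not_measurable_IllF
  convert hm using 1
  ext T
  simp only [IllF, Set.mem_ofPred_eq, Sum.forall, Sum.elim_inl, Sum.elim_inr, sub_zero,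
    AddSubgroup.mem_bot, sub_eq_zero, forall_const, φ1, φ2, AddMonoidHom.sub_apply,
    AddMonoidHom.finsetSum_apply, AddMonoidHom.nsmul_apply, Prod.forall]
  constructor
  · rintro ⟨b, hb⟩
    obtain ⟨u, v, huv⟩ := exists_coef
    obtain ⟨g, ha, hb'⟩ := hsurj2 (solZ u v b)
      (fun s => 3 ^ (b s.length) * v (b s.length) * solZ u v b s)
    refine ⟨g, fun s hs => ?_, ?_, fun s K => ?_, fun s K => ?_⟩
    · rw [ha]
      by_contra hne
      have := solZ_branch u v b s (by exact_mod_cast hne)
      rw [this, hb] at hs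
      exact absurd hs (by simp)
    · rw [ha]; simp [solZ]
    · simp only [ha, hb', solZ]
      have e := huv (b s.length)
      have e' : (3 : ℚ) ^ (b s.length) * v (b s.length) - 2 ^ (b s.length) * u (b s.length) = 1 := by
        exact_mod_cast e
      by_cases hK : b s.length < K
      · rw [Finset.sum_eq_single (b s.length)]
        · convert AddSubgroup.zero_mem _ using 1
          simp only [if_true, Bool.false_eq_true, if_false, nsmul_eq_mul]
          push_cast
          linear_combination (solZ u v b s : ℚ) * e'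
        · intro k _ hk
          simp [hk]
        · intro h
          exact absurd (Finset.mem_range.2 hK) h
      · rw [Finset.sum_eq_zero]
        · obtain ⟨d, hd⟩ := Nat.exists_eq_add_of_le (not_lt.1 hK)
          refine ⟨2 ^ d * u (b s.length) * solZ u v b s, ?_⟩
          simp only [zsmul_eq_mul]
          push_cast
          have : (2 : ℚ) ^ (b s.length) = 2 ^ K * 2 ^ d := by rw [hd, pow_add]
          rw [this] at e'
          linear_combination (-(solZ u v b s : ℚ)) * e'
        · intro k hk
          have : k ≠ b s.length := by have := Finset.mem_range.1 hk; omega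
          simp [this]
    · simp only [ha, hb', solZ]
      by_cases hK : b s.length < K
      · rw [Finset.sum_eq_single (b s.length)]
        · convert AddSubgroup.zero_mem _ using 1
          simp only [if_true, nsmul_eq_mul]
          push_cast
          ring
        · intro k _ hk
          simp [hk]
        · intro h
          exact absurd (Finset.mem_range.2 hK) h
      · rw [Finset.sum_eq_zero]
        · obtain ⟨d, hd⟩ := Nat.exists_eq_add_of_le (not_lt.1 hK)
          refine ⟨3 ^ d * v (b s.length) * solZ u v b s, ?_⟩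
          simp only [zsmul_eq_mul]
          push_cast
          have : (3 : ℚ) ^ (b s.length) = 3 ^ K * 3 ^ d := by rw [hd, pow_add]
          rw [this]
          ring
        · intro k hk
          have : k ≠ b s.length := by have := Finset.mem_range.1 hk; omega
          simp [this]
  · rintro ⟨g, c1, c2, c3, c4⟩
    obtain ⟨c, hc⟩ := exists_branch (fun s => av s g ≠ 0) (by rw [c2]; exact one_ne_zero) (by
      intro s hs
      by_contra hcon
      push Not at hcon
      have e1 : bv s g - av s g = 0 := eq_zero_of_forall_mem (r := 2) (by norm_num) fun K => by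
        simpa [hcon] using c3 s K
      have e2 : bv s g = 0 := eq_zero_of_forall_mem (r := 3) (by norm_num) fun K => by
        simpa [hcon] using c4 s K
      rw [e2, zero_sub, neg_eq_zero] at e1
      exact hs e1)
    refine ⟨fun i => (c i).1, fun n => ?_⟩
    rw [← map_fst_res]
    by_contra hne
    exact hc n (c1 _ (by simpa using hne))

end Pool.Agent.Lib.MP_a5f47e_lc
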