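import Mathlib
import Pool.Agent.Lib.MP_a5f47e_lc.WildZ
import Pool.Agent.Lib.MP_a5f47e_lc.WildP

set_option autoImplicit false

namespace Pool.Agent.Lib.MP_a5f47e_lc

open Topology Filter

section struct
variable {G : Type} [AddCommGroup G] [TopologicalSpace G] [IsTopologicalAddGroup G]
  [PolishSpace G]

lemma tame_torsion (hG : Tame G) {B : ℕ → AddSubgroup G} (hB : IsBase B) :
    ∃ n, ∀ m, ∀ g ∈ B n, ∃ N : ℕ, 0 < N ∧ N • g ∈ B m := by
  by_contra hcon
  push Not at hcon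
  choose m g hg hN using hcon
  let φ : ℕ → ℕ := fun k => Nat.rec 0 (fun _ n => max (m n) (n + 1)) k
  have hφ : ∀ k, φ (k + 1) = max (m (φ k)) (φ k + 1) := fun k => rfl
  have hsm : StrictMono φ := strictMono_nat_of_lt_succ fun k => by rw [hφ]; omega
  refine not_tame_Z (hB.subseq φ hsm.monotone fun k => hsm.le_apply) (fun k => g (φ k))
    (fun k => hg _) (fun n k hk => ?_) hG
  by_contra hne
  refine hN (φ n) k.natAbs (Int.natAbs_pos.2 hne) ?_
  have h1 : k • g (φ n) ∈ B (m (φ n)) := hB.anti (by rw [hφ]; omega) hk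
  rcases Int.natAbs_eq k with h | h
  · rw [h, natCast_zsmul] at h1
    exact h1
  · rw [h, neg_smul, natCast_zsmul] at h1
    exact (B _).neg_mem_iff.1 h1

lemma tame_socle (hG : Tame G) {B : ℕ → AddSubgroup G} (hB : IsBase B) {p : ℕ} (hp : p.Prime) :
    ∃ n, ∀ m, (Soc p (B n) (B m)).Finite := by
  by_contra hcon
  push Not at hcon
  choose m hm using hcon
  have hlt : ∀ n, n < m n := by
    intro n
    by_contra hle
    refine hm n ((Set.finite_singleton 0).subset ?_)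
    rintro _ ⟨g, hg, rfl⟩
    exact (QuotientAddGroup.eq_zero_iff _).2 (hB.anti (not_lt.1 hle) hg.1)
  let φ : ℕ → ℕ := fun k => Nat.rec 0 (fun _ n => m n) k
  have hsm : StrictMono φ := strictMono_nat_of_lt_succ fun k => hlt (φ k)
  exact not_tame_P (hB.subseq φ hsm.monotone fun k => hsm.le_apply) hp (fun k => hm (φ k)) hG

lemma tame_structure (hG : Tame G) {B0 : ℕ → AddSubgroup G} (hB : IsBase B0) :
    ∃ B : ℕ → AddSubgroup G, IsBase B ∧ (∀ m, ∀ g ∈ B 0, ∃ N : ℕ, 0 < N ∧ N • g ∈ B m) ∧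
      ∀ m p : ℕ, p.Prime → p ≤ m → (Soc p (B m) (B (m + 1))).Finite := by
  obtain ⟨n0, h0⟩ := tame_torsion hG hB
  choose! n hn using fun p (hp : Nat.Prime p) => tame_socle hG hB hp
  let ψ : ℕ → ℕ := fun m => n0 + m + ∑ p ∈ Finset.range (m + 1), n p
  have hmono : Monotone ψ := monotone_nat_of_le_succ fun k => by
    simp only [ψ, Finset.sum_range_succ _ (k + 1)]
    omega
  refine ⟨fun m => B0 (ψ m), hB.subseq ψ hmono fun k => by simp only [ψ]; omega,
    fun m g hg => h0 _ g (hB.anti (by simp only [ψ]; omega) hg), fun m p hp hpm => ?_⟩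
  refine (hn p hp (ψ (m + 1))).subset ?_
  rintro _ ⟨g, hg, rfl⟩
  refine ⟨g, ⟨hB.anti ?_ hg.1, hg.2⟩, rfl⟩
  have : n p ≤ ∑ p ∈ Finset.range (m + 1), n p :=
    Finset.single_le_sum (f := n) (fun _ _ => Nat.zero_le _)
      (Finset.mem_range.2 (Nat.lt_succ_of_le hpm))
  simp only [ψ]
  omega

end struct

/-- A copy of a type carrying the discrete topology. -/
def Disc (A : Type) : Type := A

instance discGroup (A : Type) [h : AddCommGroup A] : AddCommGroup (Disc A) := h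
instance discTop (A : Type) : TopologicalSpace (Disc A) := ⊥
instance discDisc (A : Type) : DiscreteTopology (Disc A) := ⟨rfl⟩
instance discCount (A : Type) [h : Countable A] : Countable (Disc A) := h
instance qzCount : Countable QZ := countable_QZ

lemma T_tor : Tor (ℕ →₀ QZ) := by
  intro t
  choose N hN hNt using fun i => QZ_tor (t i)
  refine ⟨∏ i ∈ t.support, N i, Finset.prod_pos fun i _ => hN i, ?_⟩
  ext i
  by_cases hi : i ∈ t.support
  · exact nsmul_eq_zero_of_dvd (hNt i) (Finset.dvd_prod_of_mem _ hi)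
  · simp [Finsupp.notMem_support_iff.1 hi]

/-- The elements with no p-part for the primes p up to n. -/
noncomputable def An (n : ℕ) : AddSubgroup (ℕ →₀ QZ) where
  carrier := {t | ∀ p : ℕ, p.Prime → p ≤ n → pp p t = 0}
  zero_mem' := fun p _ _ => pp_eq_zero (IsCo.zero p)
  add_mem' := fun {a b} ha hb p hp hn => by rw [pp_add T_tor hp, ha p hp hn, hb p hp hn, add_zero]
  neg_mem' := fun {a} ha p hp hn => by
    have := map_neg (ppHom T_tor hp) a
    rw [ppHom_apply, ppHom_apply, ha p hp hn, neg_zero] at this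
    exact this

/-- The projection that removes the p-parts for the primes p up to n. -/
noncomputable def rho (n : ℕ) : (ℕ →₀ QZ) →+ An n := AddMonoidHom.mk'
  (fun t => ⟨t - ∑ p ∈ (Finset.range (n + 1)).filter Nat.Prime, pp p t, fun q hq hn => by
    rw [pp_sub T_tor hq, pp_sum_pp T_tor hq, if_pos (by omega), sub_self]⟩) (by
    intro a b
    apply Subtype.ext
    simp only [AddSubgroup.coe_add]
    rw [Finset.sum_congr rfl fun p hp => pp_add T_tor (Finset.mem_filter.1 hp).2 a b,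
      Finset.sum_add_distrib]
    abel)

lemma rho_eq {n q : ℕ} (hq : q.Prime) (hn : n < q) {t : ℕ →₀ QZ} (ht : q • t = 0) :
    (rho n t : ℕ →₀ QZ) = t := by
  show t - ∑ p ∈ (Finset.range (n + 1)).filter Nat.Prime, pp p t = t
  rw [Finset.sum_eq_zero, sub_zero]
  intro p hp
  have hp' := Finset.mem_filter.1 hp
  have := Finset.mem_range.1 hp'.1
  exact pp_eq_zero (IsPrim.isCo hq hp'.2 (by omega) ⟨1, by rwa [pow_one]⟩)

/-- The factors of the universal group. -/
abbrev Hn (n : ℕ) : Type := Disc (An n × QZ)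

/-- The universal group, written additively. -/
abbrev UU : Type := Disc (ℕ →₀ ℚ × QZ) × ((n : ℕ) → Hn n)

lemma Hn_tor (n : ℕ) : Tor (Hn n) := by
  rintro ⟨t, b⟩
  obtain ⟨N, hN, ht⟩ := T_tor t
  obtain ⟨M, hM, hb⟩ := QZ_tor b
  refine ⟨N * M, Nat.mul_pos hN hM, Prod.ext (Subtype.ext ?_) ?_⟩
  · exact nsmul_eq_zero_of_dvd ht (Dvd.intro _ rfl)
  · exact nsmul_eq_zero_of_dvd hb (Dvd.intro_left _ rfl)

lemma Hn_linC {p : ℕ} (hp : p.Prime) (n : ℕ) (hn : p ≤ n) : LinC p (Hn n) := by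
  intro F hne hanti haff hprim
  obtain ⟨b, hb⟩ := QZ_linC hp (fun m => (fun x : An n × QZ => x.2) '' F m)
    (fun m => (hne m).image _) (fun m => Set.image_mono (hanti m)) (fun m => by
      rintro _ ⟨x, hx, rfl⟩ _ ⟨y, hy, rfl⟩ _ ⟨z, hz, rfl⟩
      exact ⟨_, haff m x hx y hy z hz, rfl⟩) (fun m => by
      rintro _ ⟨x, hx, rfl⟩
      obtain ⟨k, hk⟩ := hprim m x hx
      exact ⟨k, congrArg Prod.snd hk⟩)
  refine ⟨((0, b) : An n × QZ), fun m => ?_⟩
  obtain ⟨⟨t, b'⟩, hx, rfl⟩ := hb m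
  obtain ⟨k, hk⟩ := hprim m _ hx
  have h1 : p ^ k • (t : ℕ →₀ QZ) = 0 := congrArg Subtype.val (congrArg Prod.fst hk)
  have h2 : t = 0 := Subtype.ext ((pp_eq_self ⟨k, h1⟩).symm.trans (t.2 p hp hn))
  rw [h2] at hx
  exact hx

theorem UU_tame : Tame UU :=
  tame_prod (tame_pi Hn_tor fun p hp => ⟨p, Hn_linC hp⟩)

lemma UU_na : ∀ s ∈ 𝓝 (0 : UU), ∃ V : AddSubgroup UU, IsOpen (V : Set UU) ∧ (V : Set UU) ⊆ s := by
  intro s hs
  have hc : Continuous fun v : (n : ℕ) → Hn n => ((0, v) : UU) := Continuous.prodMk_right 0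
  obtain ⟨n, hn⟩ := agree_of_nhds (hc.continuousAt.preimage_mem_nhds (x := 0) hs)
  let V : AddSubgroup UU :=
    { carrier := {u | u.1 = 0 ∧ Agree n u.2 0}
      zero_mem' := ⟨rfl, Agree.refl _ _⟩
      add_mem' := fun {a b} ha hb => ⟨by rw [Prod.fst_add, ha.1, hb.1, add_zero], fun i hi => by
        have a1 : a.2 i = 0 := ha.2 i hi
        have a2 : b.2 i = 0 := hb.2 i hi
        simp [a1, a2]⟩
      neg_mem' := fun {a} ha => ⟨by rw [Prod.fst_neg, ha.1, neg_zero], fun i hi => by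
        have a1 : a.2 i = 0 := ha.2 i hi
        simp [a1]⟩ }
  refine ⟨V, V.isOpen_of_mem_nhds (g := 0) ?_, ?_⟩
  · exact prod_mem_nhds (s := {0}) ((isOpen_discrete _).mem_nhds rfl) (agree_mem_nhds n)
  · rintro ⟨a, v⟩ ⟨h1, h2⟩
    have h1' : a = 0 := h1
    rw [h1']
    exact hn v h2

section embed
variable {G : Type} [AddCommGroup G]

lemma exists_chars (B1 B2 : AddSubgroup G) (m : ℕ)
    (hfin : ∀ p : ℕ, p.Prime → p ≤ m → (Soc p B1 B2).Finite) :
    ∃ (c : ℕ → G →+ QZ) (k : ℕ), (∀ i, ∀ g ∈ B2, c i g = 0) ∧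
      ∀ p : ℕ, p.Prime → p ≤ m → ∀ g ∈ B1, p • g ∈ B2 → g ∉ B2 → ∃ i < k, c i g ≠ 0 := by
  have hS : (⋃ p ∈ {p : ℕ | p.Prime ∧ p ≤ m}, Soc p B1 B2).Finite :=
    ((Set.finite_le_nat m).subset fun p hp => hp.2).biUnion fun p hp => hfin p hp.1 hp.2
  have hch : ∀ v : G ⧸ B2, ∃ χ : G ⧸ B2 →+ QZ, v ≠ 0 → χ v ≠ 0 := by
    intro v
    by_cases hv : v = 0
    · exact ⟨0, fun h => absurd hv h⟩
    · obtain ⟨χ, hχ⟩ := CharacterModule.exists_character_apply_ne_zero_of_ne_zero hv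
      exact ⟨χ, fun _ => hχ⟩
  choose χ hχ using hch
  let l := hS.toFinset.toList
  refine ⟨fun i => (χ (l.getD i 0)).comp (QuotientAddGroup.mk' B2), l.length, fun i g hg => ?_,
    fun p hp hpm g hg hpg hng => ?_⟩
  · have : (QuotientAddGroup.mk g : G ⧸ B2) = 0 := (QuotientAddGroup.eq_zero_iff _).2 hg
    simp [this]
  · have hmem : (QuotientAddGroup.mk g : G ⧸ B2) ∈ l := by
      rw [Finset.mem_toList, Set.Finite.mem_toFinset]
      exact Set.mem_biUnion (show p ∈ {p : ℕ | p.Prime ∧ p ≤ m} from ⟨hp, hpm⟩) ⟨g, ⟨hg, hpg⟩, rfl⟩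
    obtain ⟨i, hi, e⟩ := List.mem_iff_getElem.1 hmem
    refine ⟨i, hi, ?_⟩
    show χ (l.getD i 0) (QuotientAddGroup.mk g) ≠ 0
    rw [List.getD_eq_getElem _ _ hi, e]
    exact hχ _ fun h => hng ((QuotientAddGroup.eq_zero_iff _).1 h)

lemma LC_continuous [TopologicalSpace G] [IsTopologicalAddGroup G] {A : Type} [AddCommGroup A]
    [TopologicalSpace A] [IsTopologicalAddGroup A] (φ : G →+ A) (B : AddSubgroup G)
    (hB : IsOpen (B : Set G)) (h : ∀ g ∈ B, φ g = 0) : Continuous φ := by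
  refine continuous_of_continuousAt_zero φ ?_
  refine (continuousAt_const (y := (0 : A))).congr ?_
  filter_upwards [hB.mem_nhds B.zero_mem] with g hg
  exact (h g hg).symm

theorem exists_embedding [TopologicalSpace G] [IsTopologicalAddGroup G] [PolishSpace G]
    (hna : ∀ s ∈ 𝓝 (0 : G), ∃ V : AddSubgroup G, IsOpen (V : Set G) ∧ (V : Set G) ⊆ s)
    (hG : Tame G) : ∃ f : G →+ UU, IsEmbedding f := by
  obtain ⟨B0, hB0⟩ := exists_base hna
  obtain ⟨B, hB, htor, hsoc⟩ := tame_structure hG hB0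
  have hΦ : ∀ m, ∃ Φ : G →+ (ℕ →₀ ℚ × QZ), ∀ g, Φ g = 0 ↔ g ∈ B m := fun m => by
    obtain ⟨a, ha⟩ := exists_seq_mod (B m) (hB.isOpen m)
    exact exists_univ_hom (B m) a ha
  choose Φ hΦ using hΦ
  choose c k hc1 hc2 using fun m => exists_chars (B m) (B (m + 1)) m (hsoc m)
  let θ : ℕ → G →+ (ℕ →₀ QZ) := fun m =>
    (Finsupp.mapRange.addMonoidHom (AddMonoidHom.snd ℚ QZ)).comp (Φ (m + 1))
  let η : (n : ℕ) → G →+ Hn n := fun n =>
    ((rho n).comp (θ n)).prod (c (Nat.unpair n).1 (Nat.unpair n).2)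
  let Φ0 : G →+ Disc (ℕ →₀ ℚ × QZ) := Φ 0
  let f : G →+ UU := Φ0.prod (AddMonoidHom.pi η)
  have key : ∀ m, ∀ g ∈ B m, rho m (θ m g) = 0 → (∀ i < k m, c m i g = 0) → g ∈ B (m + 1) := by
    intro m g hg h1 h2
    by_contra hng
    obtain ⟨N0, hN0, hN0g⟩ := htor (m + 1) g (hB.anti (Nat.zero_le m) hg)
    let N := addOrderOf (QuotientAddGroup.mk g : G ⧸ B (m + 1))
    have hN : ∀ j : ℕ, j • g ∈ B (m + 1) ↔ N ∣ j := by
      intro j
      rw [addOrderOf_dvd_iff_nsmul_eq_zero, ← QuotientAddGroup.mk_nsmul,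
        QuotientAddGroup.eq_zero_iff]
    have hNpos : 0 < N := Nat.pos_of_dvd_of_pos ((hN N0).1 hN0g) hN0
    have hN1 : N ≠ 1 := fun h => hng (by simpa using (hN 1).2 (by rw [h]))
    obtain ⟨q, hq, N', hN'⟩ := Nat.exists_prime_and_dvd hN1
    have hv1 : q • N' • g ∈ B (m + 1) := by rw [← mul_smul, ← hN']; exact (hN N).2 dvd_rfl
    have hv2 : N' • g ∉ B (m + 1) := by
      intro h
      have h3 := (hN N').1 h
      have hN'pos : 0 < N' := Nat.pos_of_mul_pos_left (hN' ▸ hNpos)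
      have h4 := Nat.le_of_dvd hN'pos h3
      have h5 := hq.two_le
      nlinarith
    by_cases hqm : q ≤ m
    · obtain ⟨i, hi, hne⟩ := hc2 m q hq hqm _ ((B m).nsmul_mem hg N') hv1 hv2
      exact hne (by rw [map_nsmul, h2 i hi, smul_zero])
    · have e1 : q • Φ (m + 1) (N' • g) = 0 := by rw [← map_nsmul]; exact (hΦ _ _).2 hv1
      have e2 : q • θ m (N' • g) = 0 := by
        simp only [θ, AddMonoidHom.comp_apply]
        rw [← map_nsmul, e1, map_zero]
      have e3 : θ m (N' • g) = 0 := by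
        rw [← rho_eq hq (not_le.1 hqm) e2, map_nsmul, map_nsmul, h1, smul_zero]
        rfl
      apply hv2
      rw [← hΦ]
      ext1 i
      refine Prod.ext ?_ ?_
      · have := congrArg Prod.fst (DFunLike.congr_fun e1 i)
        simp only [Finsupp.coe_nsmul, Pi.smul_apply, Prod.smul_fst, Finsupp.coe_zero,
          Pi.zero_apply, Prod.fst_zero, smul_eq_zero, hq.ne_zero, false_or] at this
        exact this
      · exact DFunLike.congr_fun e3 i
  have hcont : Continuous f := by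
    refine Continuous.prodMk (LC_continuous Φ0 (B 0) (hB.isOpen 0) fun g hg => (hΦ 0 g).2 hg)
      (continuous_pi fun n => LC_continuous (η n) (B (n + 1)) (hB.isOpen _) fun g hg => ?_)
    refine Prod.ext ?_ ?_
    · show rho n (Finsupp.mapRange.addMonoidHom (AddMonoidHom.snd ℚ QZ) (Φ (n + 1) g)) = 0
      rw [(hΦ _ g).2 hg, map_zero, map_zero]
    · exact hc1 _ _ g (hB.anti (Nat.succ_le_succ (Nat.unpair_left_le n)) hg)
  have hind : IsInducing f := by
    rw [IsTopologicalAddGroup.isInducing_iff_nhds_zero]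
    refine le_antisymm ?_ ?_
    · have := hcont.tendsto 0
      rw [map_zero] at this
      exact this.le_comap
    · intro s hs
      obtain ⟨m, hm⟩ := hB.basis s hs
      obtain ⟨M, hM1, hM2⟩ : ∃ M, m ≤ M ∧ ∀ j < m, ∀ i < k j, Nat.pair j i < M := by
        obtain ⟨M, hM⟩ := (((Finset.range m).sigma fun j => Finset.range (k j)).finite_toSet.image
          (fun x : (_ : ℕ) × ℕ => Nat.pair x.1 x.2)).bddAbove
        refine ⟨max m (M + 1), le_max_left _ _, fun j hj i hi => ?_⟩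
        have : Nat.pair j i ≤ M := hM ⟨⟨j, i⟩, by simp [hj, hi], rfl⟩
        omega
      refine Filter.mem_comap.2 ⟨({0} : Set (Disc (ℕ →₀ ℚ × QZ))) ×ˢ {h | Agree M h 0},
        prod_mem_nhds ((isOpen_discrete _).mem_nhds rfl) (agree_mem_nhds M), fun g hg => hm ?_⟩
      have all : ∀ j ≤ m, g ∈ B j := by
        intro j
        induction j with
        | zero => exact fun _ => (hΦ 0 g).1 hg.1
        | succ j ih =>
          intro hj
          refine key j g (ih (by omega)) ?_ fun i hi => ?_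
          · exact congrArg Prod.fst (hg.2 j (by omega))
          · have : c (Nat.unpair (Nat.pair j i)).1 (Nat.unpair (Nat.pair j i)).2 g = 0 :=
              congrArg Prod.snd (hg.2 (Nat.pair j i) (hM2 j (by omega) i hi))
            rwa [Nat.unpair_pair] at this
      exact all m le_rfl
  exact ⟨f, hind.isEmbedding⟩

end embed

end Pool.Agent.Lib.MP_a5f47e_lc
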